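import Mathlib
set_option autoImplicit false

/-!
# Combinatorial lemmas on subset sums
-/

namespace Pool.Agent.R465.Weird
open Finset

/-- A sequence of weights such that every weight is at most one more than `c` plus the sum of the
smaller weights is complete. -/
theorem fill {ι : Type*} [DecidableEq ι] (w : ι → ℕ) (c : ℕ) (n : ℕ) : ∀ s : Finset ι, s.card = n →
    (∀ i ∈ s, w i ≤ c + 1 + ∑ j ∈ s.filter (fun j => w j < w i), w j) →
    ∀ z ≤ c + ∑ i ∈ s, w i, ∃ t ⊆ s, ∃ r ≤ c, z = r + ∑ i ∈ t, w i := by
  induction n with
  | zero =>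
    intro s hs _ z hz
    rw [Finset.card_eq_zero] at hs
    subst hs
    refine ⟨∅, Finset.Subset.refl _, z, ?_, by simp⟩
    simpa using hz
  | succ n ih =>
    intro s hs h z hz
    have hne : s.Nonempty := Finset.card_pos.1 (by omega)
    obtain ⟨i, hi, hmax⟩ := Finset.exists_max_image s w hne
    have hcard : (s.erase i).card = n := by rw [Finset.card_erase_of_mem hi]; omega
    have h' : ∀ j ∈ s.erase i,
        w j ≤ c + 1 + ∑ l ∈ (s.erase i).filter (fun l => w l < w j), w l := by
      intro j hj
      have hjs := Finset.mem_of_mem_erase hj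
      have h1 : (s.erase i).filter (fun l => w l < w j) = s.filter (fun l => w l < w j) := by
        ext l
        simp only [Finset.mem_filter, Finset.mem_erase]
        constructor
        · rintro ⟨⟨_, h1⟩, h2⟩
          exact ⟨h1, h2⟩
        · rintro ⟨h1, h2⟩
          refine ⟨⟨?_, h1⟩, h2⟩
          rintro rfl
          have := hmax j hjs
          omega
      rw [h1]
      exact h j hjs
    have hsum : ∑ j ∈ s, w j = w i + ∑ j ∈ s.erase i, w j := (Finset.add_sum_erase s w hi).symm
    rcases Nat.lt_or_ge (c + ∑ j ∈ s.erase i, w j) z with hlt | hge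
    · have hwi : w i ≤ c + 1 + ∑ j ∈ s.erase i, w j := by
        refine (h i hi).trans ?_
        have : ∑ j ∈ s.filter (fun j => w j < w i), w j ≤ ∑ j ∈ s.erase i, w j := by
          refine Finset.sum_le_sum_of_subset ?_
          intro l hl
          rw [Finset.mem_filter] at hl
          rw [Finset.mem_erase]
          refine ⟨?_, hl.1⟩
          rintro rfl
          omega
        omega
      obtain ⟨t, ht, r, hr, hz'⟩ := ih (s.erase i) hcard h' (z - w i) (by omega)
      have hit : i ∉ t := fun hit => Finset.notMem_erase i s (ht hit)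
      refine ⟨insert i t, ?_, r, hr, ?_⟩
      · intro l hl
        rw [Finset.mem_insert] at hl
        rcases hl with rfl | hl
        · exact hi
        · exact Finset.mem_of_mem_erase (ht hl)
      · rw [Finset.sum_insert hit]
        omega
    · obtain ⟨t, ht, r, hr, hz'⟩ := ih (s.erase i) hcard h' z hge
      exact ⟨t, ht.trans (Finset.erase_subset _ _), r, hr, hz'⟩

/-- Subset sums of numbers coprime to `m` cover all residue classes modulo `m`. -/
theorem residues_card (m : ℕ) [NeZero m] (R : Finset ℕ) (hR : ∀ p ∈ R, p.Coprime m) :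
    min m (R.card + 1) ≤ ((R.powerset).image (fun t => ((∑ p ∈ t, p : ℕ) : ZMod m))).card := by
  classical
  induction R using Finset.induction_on with
  | empty => simp
  | insert a R ha ih =>
    have ih' := ih (fun p hp => hR p (Finset.mem_insert_of_mem hp))
    set S := (R.powerset).image (fun t => ((∑ p ∈ t, p : ℕ) : ZMod m)) with hS
    set S' := ((insert a R).powerset).image (fun t => ((∑ p ∈ t, p : ℕ) : ZMod m)) with hS'
    have h1 : S ⊆ S' := by
      refine Finset.image_subset_image (Finset.powerset_mono.2 (Finset.subset_insert _ _))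
    have h2 : S.image (fun x => x + (a : ZMod m)) ⊆ S' := by
      intro x hx
      rw [Finset.mem_image] at hx
      obtain ⟨y, hy, rfl⟩ := hx
      rw [hS, Finset.mem_image] at hy
      obtain ⟨t, ht, rfl⟩ := hy
      rw [Finset.mem_powerset] at ht
      rw [hS', Finset.mem_image]
      refine ⟨insert a t, ?_, ?_⟩
      · rw [Finset.mem_powerset]
        exact Finset.insert_subset_insert a ht
      · rw [Finset.sum_insert (fun h => ha (ht h))]
        push_cast
        ring
    rw [Finset.card_insert_of_notMem ha]
    by_cases hfull : S.card = m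
    · have : S.card ≤ S'.card := Finset.card_le_card h1
      omega
    · -- `S` is not closed under adding `a`
      have hcardle : S.card ≤ m := by
        have := Finset.card_le_univ S
        rwa [ZMod.card] at this
      have h3 : ¬ S.image (fun x => x + (a : ZMod m)) ⊆ S := by
        intro hsub
        apply hfull
        have hu : IsUnit (a : ZMod m) := (ZMod.isUnit_iff_coprime a m).2
          (hR a (Finset.mem_insert_self _ _))
        have h0 : (0 : ZMod m) ∈ S := by
          rw [hS, Finset.mem_image]
          exact ⟨∅, by simp, by simp⟩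
        have h4 : ∀ k : ℕ, ((k : ZMod m) * (a : ZMod m)) ∈ S := by
          intro k
          induction k with
          | zero => simpa using h0
          | succ k ihk =>
            have := hsub (Finset.mem_image_of_mem _ ihk)
            rw [Nat.cast_succ, add_mul, one_mul]
            exact this
        have h5 : S = Finset.univ := by
          rw [Finset.eq_univ_iff_forall]
          intro x
          obtain ⟨u, hu'⟩ := hu
          have h6 := h4 ((x * (↑u⁻¹ : ZMod m)).val)
          rw [ZMod.natCast_val, ZMod.cast_id', id] at h6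
          rw [← hu', mul_assoc, Units.inv_mul, mul_one] at h6
          exact h6
        rw [h5, Finset.card_univ, ZMod.card]
      obtain ⟨x, hx, hxS⟩ := Finset.not_subset.1 h3
      have h4 : S.card + 1 ≤ S'.card := by
        have : insert x S ⊆ S' := by
          intro y hy
          rw [Finset.mem_insert] at hy
          rcases hy with rfl | hy
          · exact h2 hx
          · exact h1 hy
        have h5 := Finset.card_le_card this
        rw [Finset.card_insert_of_notMem hxS] at h5
        exact h5
      omega

theorem residues (m : ℕ) (hm : 0 < m) (R : Finset ℕ) (hR : ∀ p ∈ R, p.Coprime m)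
    (hc : m ≤ R.card) (z : ℕ) : ∃ t ⊆ R, (∑ p ∈ t, p) ≡ z [MOD m] := by
  classical
  have : NeZero m := ⟨hm.ne'⟩
  have h1 := residues_card m R hR
  have h2 : (R.powerset).image (fun t => ((∑ p ∈ t, p : ℕ) : ZMod m)) = Finset.univ := by
    apply Finset.eq_univ_of_card
    rw [ZMod.card]
    have h3 := Finset.card_le_univ ((R.powerset).image (fun t => ((∑ p ∈ t, p : ℕ) : ZMod m)))
    rw [ZMod.card] at h3
    have h4 : min m (R.card + 1) = m := by omega
    omega
  have h3 : (z : ZMod m) ∈ (R.powerset).image (fun t => ((∑ p ∈ t, p : ℕ) : ZMod m)) := by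
    rw [h2]; exact Finset.mem_univ _
  rw [Finset.mem_image] at h3
  obtain ⟨t, ht, h4⟩ := h3
  exact ⟨t, Finset.mem_powerset.1 ht, (ZMod.natCast_eq_natCast_iff _ _ _).1 h4⟩

/-- the product of the elements of `s` -/
def val (s : Finset ℕ) : ℕ := ∏ p ∈ s, p

theorem val_empty : val ∅ = 1 := by simp [val]

theorem val_singleton (p : ℕ) : val {p} = p := by simp [val]

theorem val_pos {s : Finset ℕ} (hs : ∀ p ∈ s, p.Prime) : 0 < val s :=
  Finset.prod_pos fun p hp => (hs p hp).pos

theorem val_inj {s t : Finset ℕ} (hs : ∀ p ∈ s, p.Prime) (ht : ∀ p ∈ t, p.Prime)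
    (h : val s = val t) : s = t := by
  rw [← Nat.primeFactors_prod hs, ← Nat.primeFactors_prod ht]
  exact congrArg Nat.primeFactors h

theorem val_union {s t : Finset ℕ} (h : Disjoint s t) : val (s ∪ t) = val s * val t :=
  Finset.prod_union h

theorem val_le_pow {s : Finset ℕ} {B : ℕ} (h : ∀ p ∈ s, p ≤ B) : val s ≤ B ^ s.card :=
  Finset.prod_le_pow_card s _ B h

theorem pow_le_val {s : Finset ℕ} {B : ℕ} (h : ∀ p ∈ s, B ≤ p) : B ^ s.card ≤ val s :=
  Finset.pow_card_le_prod s _ B h

theorem sum_val_powerset (Q : Finset ℕ) : ∑ s ∈ Q.powerset, val s = ∏ p ∈ Q, (1 + p) := by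
  classical
  unfold val
  exact (Finset.prod_one_add Q).symm

/-- a subset has a smaller value -/
theorem val_lt_of_ssubset {s t : Finset ℕ} (ht : ∀ p ∈ t, p.Prime) (h : s ⊂ t) :
    val s < val t := by
  classical
  obtain ⟨p, hp, hps⟩ := Finset.exists_of_ssubset h
  have h1 : insert p s ⊆ t := Finset.insert_subset hp h.1
  have h2 : val (insert p s) ≤ val t :=
    Finset.prod_le_prod_of_subset_of_one_le' h1 (fun q hq _ => (ht q hq).pos)
  have h3 : val (insert p s) = p * val s := Finset.prod_insert hps
  have h4 := (ht p hp).two_le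
  have h5 := val_pos (fun q hq => ht q (h.1 hq))
  nlinarith

/-- If `val Q` is the sum of the values of a family of proper subsets of the set `Q` of primes, then
`val Q` is a sum of distinct proper divisors; the same holds for its multiples. -/
theorem pseudo {Q : Finset ℕ} (hQ : ∀ p ∈ Q, p.Prime) (S : Finset (Finset ℕ))
    (hS : ∀ s ∈ S, s ⊂ Q) (hsum : ∑ s ∈ S, val s = val Q) {m : ℕ} (hm : 0 < m)
    (hdvd : val Q ∣ m) : ∃ t ⊆ m.properDivisors, ∑ i ∈ t, i = m := by
  classical
  obtain ⟨c, hc⟩ := hdvd
  have hc0 : 0 < c := by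
    rcases Nat.eq_zero_or_pos c with h | h
    · subst h; omega
    · exact h
  refine ⟨S.image (fun s => val s * c), ?_, ?_⟩
  · intro i hi
    rw [Finset.mem_image] at hi
    obtain ⟨s, hs, rfl⟩ := hi
    rw [Nat.mem_properDivisors, hc]
    refine ⟨Nat.mul_dvd_mul_right (Finset.prod_dvd_prod_of_subset _ _ _ (hS s hs).1) c, ?_⟩
    exact Nat.mul_lt_mul_of_pos_right (val_lt_of_ssubset hQ (hS s hs)) hc0
  · rw [Finset.sum_image]
    · rw [← Finset.sum_mul, hsum, ← hc]
    · intro s hs t ht h
      have h1 : val s = val t := Nat.eq_of_mul_eq_mul_right hc0 h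
      exact val_inj (fun p hp => hQ p ((hS s hs).1 hp)) (fun p hp => hQ p ((hS t ht).1 hp)) h1

end Pool.Agent.R465.Weird
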