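import Mathlib
import Pool.Agent.R465.Weird.Basic
set_option autoImplicit false

/-!
# Many pairs with the same difference
-/

namespace Pool.Agent.R465.Weird
open Finset

/-- A set `A ⊆ [N, 2N)` with at least `N / K` elements contains many disjoint pairs `a, a + d` with
the same difference `d < 4 K`. -/
theorem exists_pairs {N K : ℕ} {A : Finset ℕ} (hK : 0 < K) (hN : 8 * K ≤ N)
    (hA : ∀ p ∈ A, N ≤ p ∧ p < 2 * N) (hm : N ≤ K * A.card) :
    ∃ d : ℕ, 0 < d ∧ d < 4 * K ∧ ∃ I ⊆ A, (∀ a ∈ I, a + d ∈ A) ∧ (∀ a ∈ I, a + d ∉ I) ∧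
      A.card ≤ 16 * K * I.card := by
  classical
  set l := 4 * K with hl
  set A₁ := A.filter (fun a => ∃ a' ∈ A, a < a' ∧ a' < a + l) with hA₁
  set A₀ := A.filter (fun a => ¬ ∃ a' ∈ A, a < a' ∧ a' < a + l) with hA₀
  have hsplit : A₁.card + A₀.card = A.card := Finset.card_filter_add_card_filter_not _
  -- the elements without successor are few
  have h0 : A₀.card ≤ N / l + 2 := by
    have hinj : Set.InjOn (fun a => a / l) (A₀ : Set ℕ) := by
      have key : ∀ a ∈ A₀, ∀ b ∈ A₀, a < b → a / l ≠ b / l := by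
        intro a ha b hb hab heq
        rw [hA₀, Finset.mem_filter] at ha hb
        apply ha.2
        refine ⟨b, hb.1, hab, ?_⟩
        have h1 := Nat.div_add_mod a l
        have h2 := Nat.div_add_mod b l
        have h3 := Nat.mod_lt b (show 0 < l by omega)
        rw [heq] at h1
        omega
      intro a ha b hb heq
      simp only at heq
      rcases Nat.lt_trichotomy a b with h | h | h
      · exact absurd heq (key a ha b hb h)
      · exact h
      · exact absurd heq.symm (key b hb a ha h)
    have himg : A₀.image (fun a => a / l) ⊆ Finset.Icc (N / l) (2 * N / l) := by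
      intro x hx
      rw [Finset.mem_image] at hx
      obtain ⟨a, ha, rfl⟩ := hx
      rw [hA₀, Finset.mem_filter] at ha
      have := hA a ha.1
      rw [Finset.mem_Icc]
      exact ⟨Nat.div_le_div_right this.1, Nat.div_le_div_right this.2.le⟩
    have h1 : A₀.card ≤ (Finset.Icc (N / l) (2 * N / l)).card := by
      rw [← Finset.card_image_of_injOn hinj]
      exact Finset.card_le_card himg
    rw [Nat.card_Icc] at h1
    have h2 : 2 * N / l ≤ 2 * (N / l) + 1 := by
      have h3 := Nat.div_add_mod N l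
      have h4 := Nat.mod_lt N (show 0 < l by omega)
      have h5 : 2 * N < (2 * (N / l) + 2) * l := by
        calc 2 * N = 2 * (l * (N / l) + N % l) := by rw [h3]
          _ < 2 * (l * (N / l) + l) := by omega
          _ = _ := by ring
      have h6 := (Nat.div_lt_iff_lt_mul (show 0 < l by omega)).2 h5
      omega
    omega
  have h1 : A.card ≤ 2 * A₁.card := by
    have h2 : N / l * l ≤ N := Nat.div_mul_le_self _ _
    have h3 : 2 * K * (2 * (N / l + 2)) ≤ 2 * N := by
      have : 2 * K * (2 * (N / l + 2)) = N / l * l + 8 * K := by rw [hl]; ring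
      omega
    -- `2 (N / l + 2) ≤ card A`
    have h4 : 2 * K * (2 * (N / l + 2)) ≤ 2 * K * A.card := by
      calc 2 * K * (2 * (N / l + 2)) ≤ 2 * N := h3
        _ ≤ 2 * (K * A.card) := by omega
        _ = _ := by ring
    have h5 : 2 * (N / l + 2) ≤ A.card := Nat.le_of_mul_le_mul_left h4 (by omega)
    omega
  -- choose a popular difference
  have hex : ∀ a ∈ A₁, ∃ d, (0 < d ∧ d < l) ∧ a + d ∈ A := by
    intro a ha
    rw [hA₁, Finset.mem_filter] at ha
    obtain ⟨_, a', ha', h2, h3⟩ := ha
    exact ⟨a' - a, ⟨by omega, by omega⟩, by rw [show a + (a' - a) = a' by omega]; exact ha'⟩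
  choose! D hD1 hD2 using hex
  have hmaps : ∀ a ∈ A₁, D a ∈ Finset.Ioo 0 l := fun a ha => by
    rw [Finset.mem_Ioo]; exact hD1 a ha
  have hne : (Finset.Ioo 0 l).Nonempty := ⟨1, by rw [Finset.mem_Ioo]; omega⟩
  obtain ⟨d, hd, hcard⟩ : ∃ d ∈ Finset.Ioo 0 l,
      A₁.card ≤ l * (A₁.filter (fun a => D a = d)).card := by
    by_contra hcon
    push Not at hcon
    have h2 := Finset.card_eq_sum_card_fiberwise (f := D) (s := A₁) (t := Finset.Ioo 0 l) hmaps
    have h3 : l * A₁.card < l * A₁.card := by
      calc l * A₁.card = ∑ b ∈ Finset.Ioo 0 l, l * (A₁.filter (fun a => D a = b)).card := by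
            rw [← Finset.mul_sum, ← h2]
        _ < ∑ b ∈ Finset.Ioo 0 l, A₁.card := Finset.sum_lt_sum_of_nonempty hne hcon
        _ = (l - 1) * A₁.card := by rw [Finset.sum_const, Nat.card_Ioo, smul_eq_mul]; simp
        _ ≤ l * A₁.card := Nat.mul_le_mul_right _ (by omega)
    omega
  rw [Finset.mem_Ioo] at hd
  set I₀ := A₁.filter (fun a => D a = d) with hI₀
  have hI₀A : ∀ a ∈ I₀, a ∈ A ∧ a + d ∈ A := by
    intro a ha
    rw [hI₀, Finset.mem_filter] at ha
    have h2 := hD2 a ha.1
    rw [ha.2] at h2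
    have h3 := ha.1
    rw [hA₁, Finset.mem_filter] at h3
    exact ⟨h3.1, h2⟩
  have hpar := Finset.card_filter_add_card_filter_not (s := I₀) (fun a => a / d % 2 = 0)
  have hdiv : ∀ a : ℕ, (a + d) / d = a / d + 1 := fun a => Nat.add_div_right a hd.1
  refine ⟨d, hd.1, hd.2, ?_⟩
  rcases Nat.lt_or_ge (I₀.filter (fun a => ¬ (a / d % 2 = 0))).card
    (I₀.filter (fun a => a / d % 2 = 0)).card with hlt | hge
  · refine ⟨I₀.filter (fun a => a / d % 2 = 0), ?_, ?_, ?_, ?_⟩
    · intro a ha
      exact (hI₀A a (Finset.mem_filter.1 ha).1).1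
    · intro a ha
      exact (hI₀A a (Finset.mem_filter.1 ha).1).2
    · intro a ha ha'
      rw [Finset.mem_filter] at ha ha'
      rw [hdiv] at ha'
      omega
    · have : A.card ≤ 2 * (l * I₀.card) := by omega
      calc A.card ≤ 2 * (l * I₀.card) := this
        _ ≤ 2 * (l * (2 * (I₀.filter (fun a => a / d % 2 = 0)).card)) := by
          apply Nat.mul_le_mul_left
          apply Nat.mul_le_mul_left
          omega
        _ = _ := by rw [hl]; ring
  · refine ⟨I₀.filter (fun a => ¬ (a / d % 2 = 0)), ?_, ?_, ?_, ?_⟩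
    · intro a ha
      exact (hI₀A a (Finset.mem_filter.1 ha).1).1
    · intro a ha
      exact (hI₀A a (Finset.mem_filter.1 ha).1).2
    · intro a ha ha'
      rw [Finset.mem_filter] at ha ha'
      rw [hdiv] at ha'
      omega
    · have : A.card ≤ 2 * (l * I₀.card) := by omega
      calc A.card ≤ 2 * (l * I₀.card) := this
        _ ≤ 2 * (l * (2 * (I₀.filter (fun a => ¬ (a / d % 2 = 0))).card)) := by
          apply Nat.mul_le_mul_left
          apply Nat.mul_le_mul_left
          omega
        _ = _ := by rw [hl]; ring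

end Pool.Agent.R465.Weird
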