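import Mathlib
import Pool.Agent.R465.Weird.Basic
set_option autoImplicit false

/-!
# Toggles

Let `I ⊆ A` with `I + d ⊆ A` and `I ∩ (I + d) = ∅`, and let `B` be the rest of `A`.  For `g ⊆ B` and
`a < b` in `I` we may use either the divisors `g a (b + d)`, `g (a + d) b` or the divisors `g a b`,
`g (a + d) (b + d)`; the difference of the two sums is `g d ^ 2`.
-/

namespace Pool.Agent.R465.Weird
open Finset

/-- the data -/
structure TData (A I B : Finset ℕ) (d : ℕ) : Prop where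
  hI : I ⊆ A
  hJ : ∀ a ∈ I, a + d ∈ A
  hIJ : ∀ a ∈ I, a + d ∉ I
  hB : ∀ x, x ∈ B ↔ x ∈ A ∧ x ∉ I ∧ ∀ a ∈ I, x ≠ a + d

/-- the index set of the toggles -/
def T (I B : Finset ℕ) : Finset (Finset ℕ × (ℕ × ℕ)) :=
  (B.powerset.filter (fun g => g.card ≤ 2)) ×ˢ ((I ×ˢ I).filter (fun x => x.1 < x.2))

/-- the first choice -/
def X0 (d : ℕ) (τ : Finset ℕ × (ℕ × ℕ)) : Finset (Finset ℕ) :=
  {τ.1 ∪ {τ.2.1, τ.2.2 + d}, τ.1 ∪ {τ.2.1 + d, τ.2.2}}

/-- the second choice -/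
def X1 (d : ℕ) (τ : Finset ℕ × (ℕ × ℕ)) : Finset (Finset ℕ) :=
  {τ.1 ∪ {τ.2.1, τ.2.2}, τ.1 ∪ {τ.2.1 + d, τ.2.2 + d}}

variable {A I B : Finset ℕ} {d : ℕ}

theorem mem_T {τ : Finset ℕ × (ℕ × ℕ)} :
    τ ∈ T I B ↔ (τ.1 ⊆ B ∧ τ.1.card ≤ 2) ∧ (τ.2.1 ∈ I ∧ τ.2.2 ∈ I) ∧ τ.2.1 < τ.2.2 := by
  unfold T
  rw [Finset.mem_product, Finset.mem_filter, Finset.mem_powerset, Finset.mem_filter,
    Finset.mem_product]

/-- recover the toggle from one of its sets -/
def dec (I B : Finset ℕ) (d : ℕ) (s : Finset ℕ) : Finset ℕ × Finset ℕ :=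
  (s ∩ B, (s \ B).image (fun x => if x ∈ I then x else x - d))

theorem dec_eq (H : TData A I B d) {g : Finset ℕ} {a b x y : ℕ} (hg : g ⊆ B) (ha : a ∈ I)
    (hb : b ∈ I) (hx : x = a ∨ x = a + d) (hy : y = b ∨ y = b + d) :
    dec I B d (g ∪ {x, y}) = (g, {a, b}) := by
  have key : ∀ c ∈ I, ∀ z, (z = c ∨ z = c + d) → z ∉ B ∧ (if z ∈ I then z else z - d) = c := by
    intro c hc z hz
    rcases hz with rfl | rfl
    · refine ⟨fun h => ((H.hB _).1 h).2.1 hc, ?_⟩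
      rw [if_pos hc]
    · refine ⟨fun h => ((H.hB _).1 h).2.2 c hc rfl, ?_⟩
      rw [if_neg (H.hIJ c hc)]
      omega
  obtain ⟨hx1, hx2⟩ := key a ha x hx
  obtain ⟨hy1, hy2⟩ := key b hb y hy
  unfold dec
  have h1 : (g ∪ {x, y}) ∩ B = g := by
    ext z
    simp only [Finset.mem_inter, Finset.mem_union, Finset.mem_insert, Finset.mem_singleton]
    constructor
    · rintro ⟨h | rfl | rfl, h2⟩
      · exact h
      · exact absurd h2 hx1
      · exact absurd h2 hy1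
    · intro h
      exact ⟨Or.inl h, hg h⟩
  have h2 : (g ∪ {x, y}) \ B = {x, y} := by
    ext z
    simp only [Finset.mem_sdiff, Finset.mem_union, Finset.mem_insert, Finset.mem_singleton]
    constructor
    · rintro ⟨h | h | h, h2⟩
      · exact absurd (hg h) h2
      · exact Or.inl h
      · exact Or.inr h
    · rintro (rfl | rfl)
      · exact ⟨Or.inr (Or.inl rfl), hx1⟩
      · exact ⟨Or.inr (Or.inr rfl), hy1⟩
  rw [h1, h2, Finset.image_insert, Finset.image_singleton, hx2, hy2]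

theorem dec_of_mem (H : TData A I B d) {τ : Finset ℕ × (ℕ × ℕ)} (hτ : τ ∈ T I B) {s : Finset ℕ}
    (hs : s ∈ X0 d τ ∨ s ∈ X1 d τ) : dec I B d s = (τ.1, {τ.2.1, τ.2.2}) := by
  rw [mem_T] at hτ
  unfold X0 X1 at hs
  simp only [Finset.mem_insert, Finset.mem_singleton] at hs
  rcases hs with (rfl | rfl) | (rfl | rfl)
  · exact dec_eq H hτ.1.1 hτ.2.1.1 hτ.2.1.2 (Or.inl rfl) (Or.inr rfl)
  · exact dec_eq H hτ.1.1 hτ.2.1.1 hτ.2.1.2 (Or.inr rfl) (Or.inl rfl)
  · exact dec_eq H hτ.1.1 hτ.2.1.1 hτ.2.1.2 (Or.inl rfl) (Or.inl rfl)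
  · exact dec_eq H hτ.1.1 hτ.2.1.1 hτ.2.1.2 (Or.inr rfl) (Or.inr rfl)

theorem tau_inj {τ τ' : Finset ℕ × (ℕ × ℕ)} (hτ : τ ∈ T I B) (hτ' : τ' ∈ T I B)
    (h : (τ.1, ({τ.2.1, τ.2.2} : Finset ℕ)) = (τ'.1, {τ'.2.1, τ'.2.2})) : τ = τ' := by
  rw [mem_T] at hτ hτ'
  obtain ⟨g, a, b⟩ := τ
  obtain ⟨g', a', b'⟩ := τ'
  simp only [Prod.mk.injEq] at h hτ hτ' ⊢
  obtain ⟨h1, h2⟩ := h
  refine ⟨h1, ?_⟩
  have e1 : a ∈ ({a', b'} : Finset ℕ) := h2 ▸ (by simp)
  have e2 : b ∈ ({a', b'} : Finset ℕ) := h2 ▸ (by simp)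
  have e3 : a' ∈ ({a, b} : Finset ℕ) := h2.symm ▸ (by simp)
  simp only [Finset.mem_insert, Finset.mem_singleton] at e1 e2 e3
  omega

/-- the family of sets belonging to the set `S` of toggles switched to the second position -/
def fam (I B : Finset ℕ) (d : ℕ) (S : Finset (Finset ℕ × (ℕ × ℕ))) : Finset (Finset ℕ) :=
  (T I B).biUnion (fun τ => if τ ∈ S then X1 d τ else X0 d τ)

/-- all the sets which are used -/
def U (I B : Finset ℕ) (d : ℕ) : Finset (Finset ℕ) :=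
  (T I B).biUnion (fun τ => X1 d τ ∪ X0 d τ)

theorem fam_subset (S : Finset (Finset ℕ × (ℕ × ℕ))) : fam I B d S ⊆ U I B d := by
  unfold fam U
  apply Finset.biUnion_mono
  intro τ _
  split_ifs
  · exact Finset.subset_union_left
  · exact Finset.subset_union_right

theorem mem_U (H : TData A I B d) {s : Finset ℕ} (hs : s ∈ U I B d) :
    s ⊆ A ∧ s.card ≤ 4 ∧ 2 ≤ s.card := by
  unfold U at hs
  rw [Finset.mem_biUnion] at hs
  obtain ⟨τ, hτ, hs⟩ := hs
  rw [mem_T] at hτ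
  obtain ⟨⟨hg, hg2⟩, ⟨ha, hb⟩, hab⟩ := hτ
  have hBA : B ⊆ A := fun x hx => ((H.hB x).1 hx).1
  have key : ∀ x y, (x = τ.2.1 ∨ x = τ.2.1 + d) → (y = τ.2.2 ∨ y = τ.2.2 + d) → x ≠ y →
      (τ.1 ∪ {x, y}) ⊆ A ∧ (τ.1 ∪ {x, y}).card ≤ 4 ∧ 2 ≤ (τ.1 ∪ {x, y}).card := by
    intro x y hx hy hxy
    refine ⟨?_, ?_, ?_⟩
    · apply Finset.union_subset (hg.trans hBA)
      intro z hz
      simp only [Finset.mem_insert, Finset.mem_singleton] at hz
      rcases hz with rfl | rfl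
      · rcases hx with rfl | rfl
        · exact H.hI ha
        · exact H.hJ _ ha
      · rcases hy with rfl | rfl
        · exact H.hI hb
        · exact H.hJ _ hb
    · refine (Finset.card_union_le _ _).trans ?_
      have := Finset.card_le_two (a := x) (b := y)
      omega
    · have h1 : ({x, y} : Finset ℕ).card = 2 := Finset.card_pair hxy
      have h2 : ({x, y} : Finset ℕ) ⊆ τ.1 ∪ {x, y} := Finset.subset_union_right
      have := Finset.card_le_card h2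
      omega
  have n1 : τ.2.1 ≠ τ.2.2 + d := fun h => H.hIJ _ hb (h ▸ ha)
  have n2 : τ.2.1 + d ≠ τ.2.2 := fun h => H.hIJ _ ha (h.symm ▸ hb)
  rw [Finset.mem_union] at hs
  unfold X0 X1 at hs
  simp only [Finset.mem_insert, Finset.mem_singleton] at hs
  rcases hs with (rfl | rfl) | (rfl | rfl)
  · exact key _ _ (Or.inl rfl) (Or.inl rfl) hab.ne
  · exact key _ _ (Or.inr rfl) (Or.inr rfl) (by omega)
  · exact key _ _ (Or.inl rfl) (Or.inr rfl) n1
  · exact key _ _ (Or.inr rfl) (Or.inl rfl) n2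

/-- the sum of the base position -/
def base (I B : Finset ℕ) (d : ℕ) : ℕ :=
  ∑ τ ∈ T I B, val τ.1 * (τ.2.1 * (τ.2.2 + d) + (τ.2.1 + d) * τ.2.2)

theorem sum_fam (H : TData A I B d) (hd : 0 < d) (S : Finset (Finset ℕ × (ℕ × ℕ)))
    (hS : S ⊆ T I B) :
    ∑ s ∈ fam I B d S, val s = base I B d + d ^ 2 * ∑ τ ∈ S, val τ.1 := by
  classical
  unfold fam
  rw [Finset.sum_biUnion]
  · have hval : ∀ τ ∈ T I B, ∑ s ∈ (if τ ∈ S then X1 d τ else X0 d τ), val s =
        val τ.1 * (τ.2.1 * (τ.2.2 + d) + (τ.2.1 + d) * τ.2.2) +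
          if τ ∈ S then d ^ 2 * val τ.1 else 0 := by
      intro τ hτ
      rw [mem_T] at hτ
      obtain ⟨⟨hg, hg2⟩, ⟨ha, hb⟩, hab⟩ := hτ
      have hnot : ∀ c ∈ I, c ∉ τ.1 ∧ c + d ∉ τ.1 := fun c hc =>
        ⟨fun h => ((H.hB _).1 (hg h)).2.1 hc, fun h => ((H.hB _).1 (hg h)).2.2 c hc rfl⟩
      have n1 : τ.2.1 ≠ τ.2.2 + d := fun h => H.hIJ _ hb (h ▸ ha)
      have n2 : τ.2.1 + d ≠ τ.2.2 := fun h => H.hIJ _ ha (h.symm ▸ hb)
      have vv : ∀ x y, x ≠ y → x ∉ τ.1 → y ∉ τ.1 → val (τ.1 ∪ {x, y}) = val τ.1 * (x * y) := by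
        intro x y hxy hx hy
        rw [val_union]
        · congr 1
          unfold val
          rw [Finset.prod_pair hxy]
        · rw [Finset.disjoint_right]
          intro z hz
          simp only [Finset.mem_insert, Finset.mem_singleton] at hz
          rcases hz with rfl | rfl
          · exact hx
          · exact hy
      have hdist : ∀ x y x' y', x ∉ τ.1 → x ≠ x' → x ≠ y' →
          τ.1 ∪ {x, y} ≠ τ.1 ∪ {x', y'} := by
        intro x y x' y' hx h1 h2 heq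
        have : x ∈ τ.1 ∪ {x', y'} := by
          rw [← heq]; simp
        simp only [Finset.mem_union, Finset.mem_insert, Finset.mem_singleton] at this
        rcases this with h | h | h
        · exact hx h
        · exact h1 h
        · exact h2 h
      split_ifs
      · unfold X1
        rw [Finset.sum_pair (hdist _ _ _ _ (hnot _ ha).1 (by omega) n1),
          vv _ _ (by omega) (hnot _ ha).1 (hnot _ hb).1,
          vv _ _ (by omega) (hnot _ ha).2 (hnot _ hb).2]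
        ring
      · unfold X0
        rw [Finset.sum_pair (hdist _ _ _ _ (hnot _ ha).1 (by omega) (by omega)),
          vv _ _ n1 (hnot _ ha).1 (hnot _ hb).2,
          vv _ _ n2 (hnot _ ha).2 (hnot _ hb).1]
        ring
    rw [Finset.sum_congr rfl hval, Finset.sum_add_distrib]
    congr 1
    rw [← Finset.sum_filter, Finset.mul_sum]
    refine Finset.sum_congr ?_ (fun _ _ => rfl)
    ext τ
    rw [Finset.mem_filter]
    exact ⟨fun h => h.2, fun h => ⟨hS h, h⟩⟩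
  · intro τ hτ τ' hτ' hne
    rw [Function.onFun, Finset.disjoint_left]
    intro s hs hs'
    apply hne
    have h1 : dec I B d s = (τ.1, {τ.2.1, τ.2.2}) := by
      apply dec_of_mem H hτ
      split_ifs at hs
      · exact Or.inr hs
      · exact Or.inl hs
    have h2 : dec I B d s = (τ'.1, {τ'.2.1, τ'.2.2}) := by
      apply dec_of_mem H hτ'
      split_ifs at hs'
      · exact Or.inr hs'
      · exact Or.inl hs'
    exact tau_inj hτ hτ' (h1.symm.trans h2)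

end Pool.Agent.R465.Weird
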