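import Mathlib
import Pool.Agent.R465.Weird.Toggle
import Pool.Agent.R465.Weird.Pairs
set_option autoImplicit false

/-!
# The initial interval
-/

namespace Pool.Agent.R465.Weird
open Finset

/-- the pairs `a < b` in `I` -/
def prs2 (I : Finset ℕ) : Finset (ℕ × ℕ) := (I ×ˢ I).filter (fun x => x.1 < x.2)

theorem card_prs2 (I : Finset ℕ) : 2 * (prs2 I).card + I.card = I.card * I.card := by
  classical
  have h1 : I.offDiag = prs2 I ∪ (prs2 I).image Prod.swap := by
    ext ⟨a, b⟩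
    simp only [Finset.mem_offDiag, Finset.mem_union, Finset.mem_image, prs2, Finset.mem_filter,
      Finset.mem_product, Prod.exists, Prod.swap_prod_mk, Prod.mk.injEq]
    constructor
    · rintro ⟨ha, hb, hab⟩
      rcases Nat.lt_or_gt_of_ne hab with h | h
      · exact Or.inl ⟨⟨ha, hb⟩, h⟩
      · exact Or.inr ⟨b, a, ⟨⟨hb, ha⟩, h⟩, rfl, rfl⟩
    · rintro (⟨⟨ha, hb⟩, h⟩ | ⟨x, y, ⟨⟨hx, hy⟩, h⟩, rfl, rfl⟩)
      · exact ⟨ha, hb, h.ne⟩
      · exact ⟨hy, hx, h.ne'⟩
  have h2 : Disjoint (prs2 I) ((prs2 I).image Prod.swap) := by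
    rw [Finset.disjoint_left]
    rintro ⟨a, b⟩ h h'
    simp only [Finset.mem_image, prs2, Finset.mem_filter, Prod.exists, Prod.swap_prod_mk,
      Prod.mk.injEq] at h h'
    obtain ⟨x, y, ⟨_, h3⟩, rfl, rfl⟩ := h'
    exact absurd h.2 (by omega)
  have h3 := congrArg Finset.card h1
  rw [Finset.card_union_of_disjoint h2, Finset.card_image_of_injective _ Prod.swap_injective,
    Finset.offDiag_card] at h3
  have h4 : I.card ≤ I.card * I.card := Nat.le_mul_self _
  omega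

variable {A I B : Finset ℕ} {d : ℕ}

theorem T_eq : T I B = (B.powerset.filter (fun g => g.card ≤ 2)) ×ˢ prs2 I := rfl

/-- a lower bound for a part of the sum over `T` -/
theorem part_le {G : Finset (Finset ℕ)} (hG : ∀ g ∈ G, g ⊆ B ∧ g.card ≤ 2) {v : ℕ}
    (hv : ∀ g ∈ G, val g < v) :
    (prs2 I).card * ∑ g ∈ G, val g ≤ ∑ τ ∈ (T I B).filter (fun τ => val τ.1 < v), val τ.1 := by
  have h1 : (prs2 I).card * ∑ g ∈ G, val g = ∑ τ ∈ G ×ˢ prs2 I, val τ.1 := by
    rw [Finset.sum_product, Finset.mul_sum]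
    refine Finset.sum_congr rfl fun g _ => ?_
    change _ = ∑ _y ∈ prs2 I, val g
    rw [Finset.sum_const, smul_eq_mul]
  rw [h1]
  refine Finset.sum_le_sum_of_subset ?_
  intro τ hτ
  rw [Finset.mem_product] at hτ
  rw [Finset.mem_filter, T_eq, Finset.mem_product, Finset.mem_filter, Finset.mem_powerset]
  exact ⟨⟨⟨(hG _ hτ.1).1, (hG _ hτ.1).2⟩, hτ.2⟩, hv _ hτ.1⟩

theorem toggles_fill {N : ℕ} (hN : 3 ≤ N) (hA : ∀ p ∈ A, N ≤ p ∧ p < 2 * N) (H : TData A I B d)
    (hp : 2 * N ≤ (prs2 I).card) (hB : 2 ≤ B.card) :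
    ∀ z ≤ ∑ τ ∈ T I B, val τ.1, ∃ S ⊆ T I B, z = ∑ τ ∈ S, val τ.1 := by
  classical
  have hBA : B ⊆ A := fun x hx => ((H.hB x).1 hx).1
  have key : ∀ τ ∈ T I B, val τ.1 ≤ 0 + 1 +
      ∑ τ' ∈ (T I B).filter (fun τ' => val τ'.1 < val τ.1), val τ'.1 := by
    intro τ hτ
    rw [mem_T] at hτ
    obtain ⟨⟨hg, hg2⟩, -, -⟩ := hτ
    have hb : ∀ p ∈ τ.1, N ≤ p ∧ p ≤ 2 * N := fun p hp =>
      ⟨(hA p (hBA (hg hp))).1, (hA p (hBA (hg hp))).2.le⟩
    have hc : τ.1.card = 0 ∨ τ.1.card = 1 ∨ τ.1.card = 2 := by omega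
    rcases hc with h0 | h1 | h2
    · rw [Finset.card_eq_zero] at h0
      rw [h0, val_empty]
      omega
    · have hlow := pow_le_val (fun p hp => (hb p hp).1)
      have hup := val_le_pow (fun p hp => (hb p hp).2)
      rw [h1, pow_one] at hlow hup
      have h3 := part_le (I := I) (B := B) (G := {∅}) (v := val τ.1) (by
        intro g hg
        rw [Finset.mem_singleton] at hg
        subst hg
        simp) (by
        intro g hg
        rw [Finset.mem_singleton] at hg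
        subst hg
        rw [val_empty]
        omega)
      rw [Finset.sum_singleton, val_empty, mul_one] at h3
      omega
    · have hlow := pow_le_val (fun p hp => (hb p hp).1)
      have hup := val_le_pow (fun p hp => (hb p hp).2)
      rw [h2] at hlow hup
      have h3 := part_le (I := I) (B := B) (G := B.image (fun p => {p})) (v := val τ.1) (by
        intro g hg
        rw [Finset.mem_image] at hg
        obtain ⟨p, hp, rfl⟩ := hg
        simp [hp]) (by
        intro g hg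
        rw [Finset.mem_image] at hg
        obtain ⟨p, hp, rfl⟩ := hg
        rw [val_singleton]
        have := (hA p (hBA hp)).2
        nlinarith)
      rw [Finset.sum_image (fun a _ b _ h => Finset.singleton_injective h)] at h3
      have h4 : B.card * N ≤ ∑ p ∈ B, val {p} := by
        rw [← smul_eq_mul, ← Finset.sum_const]
        refine Finset.sum_le_sum fun p hp => ?_
        rw [val_singleton]
        exact (hA p (hBA hp)).1
      have h5 : 2 * N * (2 * N) ≤ (prs2 I).card * ∑ p ∈ B, val {p} :=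
        Nat.mul_le_mul hp (le_trans (Nat.mul_le_mul_right _ hB) h4)
      nlinarith
  intro z hz
  obtain ⟨t, ht, r, hr, hz'⟩ := fill (fun τ : Finset ℕ × (ℕ × ℕ) => val τ.1) 0 _ (T I B) rfl key z
    (by simpa using hz)
  refine ⟨t, ht, ?_⟩
  rw [hz']
  omega

/-- a lower bound for the total weight -/
theorem total_ge {N : ℕ} (hA : ∀ p ∈ A, N ≤ p ∧ p < 2 * N) (H : TData A I B d) :
    (prs2 I).card * (B.card.choose 2 * N ^ 2) ≤ ∑ τ ∈ T I B, val τ.1 := by
  classical
  have hBA : B ⊆ A := fun x hx => ((H.hB x).1 hx).1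
  have h1 : B.card.choose 2 * N ^ 2 ≤ ∑ g ∈ B.powersetCard 2, val g := by
    rw [← Finset.card_powersetCard, ← smul_eq_mul, ← Finset.sum_const]
    refine Finset.sum_le_sum fun g hg => ?_
    rw [Finset.mem_powersetCard] at hg
    have := pow_le_val (s := g) (B := N) (fun p hp => (hA p (hBA (hg.1 hp))).1)
    rwa [hg.2] at this
  refine (Nat.mul_le_mul_left _ h1).trans ?_
  have h2 : (prs2 I).card * ∑ g ∈ B.powersetCard 2, val g =
      ∑ τ ∈ B.powersetCard 2 ×ˢ prs2 I, val τ.1 := by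
    rw [Finset.sum_product, Finset.mul_sum]
    refine Finset.sum_congr rfl fun g _ => ?_
    change _ = ∑ _y ∈ prs2 I, val g
    rw [Finset.sum_const, smul_eq_mul]
  rw [h2]
  refine Finset.sum_le_sum_of_subset ?_
  intro τ hτ
  rw [Finset.mem_product, Finset.mem_powersetCard] at hτ
  rw [T_eq, Finset.mem_product, Finset.mem_filter, Finset.mem_powerset]
  exact ⟨⟨hτ.1.1, hτ.1.2.le⟩, hτ.2⟩

/-- **The initial interval.** -/
theorem initial {N K : ℕ} (hK : 0 < K) (hNK : 2 ^ 20 * K ^ 6 ≤ N) (A : Finset ℕ)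
    (hprime : ∀ p ∈ A, p.Prime) (hA : ∀ p ∈ A, N ≤ p ∧ p < 2 * N) (hm : N ≤ K * A.card) :
    ∃ V : Finset (Finset ℕ), (∀ s ∈ V, s ⊆ A ∧ s.card ≤ 4) ∧ ∃ x : ℕ,
      ∀ z, x ≤ z → z ≤ x + (2 * N) ^ 5 → ∃ F ⊆ V, ∑ s ∈ F, val s = z := by
  classical
  have hK6 : K ≤ K ^ 6 := Nat.le_self_pow (by norm_num) K
  have hN8 : 8 * K ≤ N := by nlinarith
  obtain ⟨d, hd, hd4, I₀, hI₀A, hI₀J, hI₀d, hI₀card⟩ := exists_pairs hK hN8 hA hm
  set m := A.card with hmdef
  -- sizes
  have hmN : 2 ^ 20 * K ^ 5 ≤ m := by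
    have : K * (2 ^ 20 * K ^ 5) ≤ K * m := by
      calc K * (2 ^ 20 * K ^ 5) = 2 ^ 20 * K ^ 6 := by ring
        _ ≤ N := hNK
        _ ≤ K * m := hm
    exact Nat.le_of_mul_le_mul_left this hK
  -- shrink `I`
  obtain ⟨I, hII, hIcard⟩ : ∃ I ⊆ I₀, I.card = min I₀.card (m / 8) :=
    Finset.exists_subset_card_eq (min_le_left _ _)
  have hI1 : 8 * I.card ≤ m := by
    rw [hIcard]
    have := min_le_right I₀.card (m / 8)
    omega
  have hK5 : 1 ≤ K ^ 5 := Nat.one_le_pow _ _ hK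
  have hI2 : m ≤ 16 * K * I.card := by
    rw [hIcard]
    rcases le_total I₀.card (m / 8) with h | h
    · rw [min_eq_left h]; exact hI₀card
    · rw [min_eq_right h]
      have h1 : m < 8 * (m / 8) + 8 := by omega
      have h2 : 1 ≤ m / 8 := by omega
      nlinarith
  set B := A.filter (fun x => x ∉ I ∧ ∀ a ∈ I, x ≠ a + d) with hBdef
  have H : TData A I B d :=
    ⟨hII.trans hI₀A, fun a ha => hI₀J a (hII ha), fun a ha h => hI₀d a (hII ha) (hII h), by
      intro x; rw [hBdef, Finset.mem_filter]⟩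
  have hBcard : m ≤ 2 * B.card := by
    have h1 : A ⊆ B ∪ (I ∪ I.image (fun a => a + d)) := by
      intro x hx
      rw [Finset.mem_union, Finset.mem_union, Finset.mem_image]
      by_cases h2 : x ∈ I
      · exact Or.inr (Or.inl h2)
      · by_cases h3 : ∀ a ∈ I, x ≠ a + d
        · left
          rw [hBdef, Finset.mem_filter]
          exact ⟨hx, h2, h3⟩
        · push Not at h3
          obtain ⟨a, ha, h4⟩ := h3
          exact Or.inr (Or.inr ⟨a, ha, h4.symm⟩)
    have h2 := Finset.card_le_card h1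
    have h3 := Finset.card_union_le B (I ∪ I.image (fun a => a + d))
    have h4 := Finset.card_union_le I (I.image (fun a => a + d))
    have h5 : (I.image (fun a => a + d)).card ≤ I.card := Finset.card_image_le
    omega
  have hcp := card_prs2 I
  set P := (prs2 I).card with hP
  set M := I.card with hM
  -- `N ≤ 16 K ^ 2 M`
  have hNM : N ≤ 16 * K ^ 2 * M := by
    calc N ≤ K * m := hm
      _ ≤ K * (16 * K * M) := Nat.mul_le_mul_left _ hI2
      _ = _ := by ring
  have hM2 : 2 ≤ M := by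
    by_contra hcon
    push Not at hcon
    have h1 : 16 * K * M ≤ 16 * K * 1 := Nat.mul_le_mul_left _ (by omega)
    have h2 : K ≤ K ^ 5 := Nat.le_self_pow (by norm_num) K
    nlinarith
  have hP4 : M ^ 2 ≤ 4 * P := by nlinarith
  -- `N ^ 2 ≤ 1024 K ^ 4 P`
  have hNP : N ^ 2 ≤ 1024 * K ^ 4 * P := by
    calc N ^ 2 ≤ (16 * K ^ 2 * M) ^ 2 := Nat.pow_le_pow_left hNM 2
      _ = 256 * K ^ 4 * M ^ 2 := by ring
      _ ≤ 256 * K ^ 4 * (4 * P) := Nat.mul_le_mul_left _ hP4
      _ = _ := by ring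
  have hK46 : K ^ 4 ≤ K ^ 6 := Nat.pow_le_pow_right hK (by norm_num)
  have hP2 : 2 * N ≤ P := by
    have h1 : 1024 * K ^ 4 * (2 * N) ≤ 1024 * K ^ 4 * P := by
      calc 1024 * K ^ 4 * (2 * N) ≤ 2 ^ 20 * K ^ 6 * N := by nlinarith
        _ ≤ N * N := Nat.mul_le_mul_right _ hNK
        _ = N ^ 2 := by ring
        _ ≤ _ := hNP
    exact Nat.le_of_mul_le_mul_left h1 (by positivity)
  have hB2 : 2 ≤ B.card := by omega
  have hN3 : 3 ≤ N := by omega
  have hfill := toggles_fill hN3 hA H hP2 hB2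
  have htot := total_ge hA H
  set W := ∑ τ ∈ T I B, val τ.1 with hW
  -- the total weight
  have hchoose : B.card ^ 2 ≤ 4 * B.card.choose 2 := by
    rw [Nat.choose_two_right]
    obtain ⟨b, hb⟩ : ∃ b, B.card = b + 2 := ⟨B.card - 2, by omega⟩
    rw [hb]
    have h1 : (b + 2) * (b + 2 - 1) / 2 * 2 = (b + 2) * (b + 2 - 1) :=
      Nat.div_mul_cancel (Nat.even_mul_pred_self _).two_dvd
    have h2 : b + 2 - 1 = b + 1 := by omega
    rw [h2] at h1 ⊢
    set X := (b + 2) * (b + 1) / 2 with hX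
    clear_value X
    have h3 : (b + 2) ^ 2 = (b + 2) * b + 2 * (b + 2) := by ring
    have h4 : (b + 2) * (b + 1) = (b + 2) * b + (b + 2) := by ring
    have h5 : 0 ≤ (b + 2) * b := Nat.zero_le _
    omega
  have hWge : (2 * N) ^ 5 + 2 * N * m ≤ W := by
    -- `N ^ 6 ≤ 2 ^ 14 K ^ 6 W`
    have h1 : N ^ 2 ≤ 16 * K ^ 2 * B.card.choose 2 := by
      calc N ^ 2 ≤ (K * m) ^ 2 := Nat.pow_le_pow_left hm 2
        _ ≤ (K * (2 * B.card)) ^ 2 := Nat.pow_le_pow_left (Nat.mul_le_mul_left _ hBcard) 2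
        _ = 4 * K ^ 2 * B.card ^ 2 := by ring
        _ ≤ 4 * K ^ 2 * (4 * B.card.choose 2) := Nat.mul_le_mul_left _ hchoose
        _ = _ := by ring
    have h2 : N ^ 6 ≤ 2 ^ 14 * K ^ 6 * W := by
      calc N ^ 6 = N ^ 2 * N ^ 2 * N ^ 2 := by ring
        _ ≤ (1024 * K ^ 4 * P) * (16 * K ^ 2 * B.card.choose 2) * N ^ 2 :=
          Nat.mul_le_mul_right _ (Nat.mul_le_mul hNP h1)
        _ = 2 ^ 14 * K ^ 6 * (P * (B.card.choose 2 * N ^ 2)) := by ring
        _ ≤ _ := Nat.mul_le_mul_left _ htot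
    have h3 : 2 ^ 14 * K ^ 6 * (64 * N ^ 5) ≤ 2 ^ 14 * K ^ 6 * W := by
      calc 2 ^ 14 * K ^ 6 * (64 * N ^ 5) = 2 ^ 20 * K ^ 6 * N ^ 5 := by ring
        _ ≤ N * N ^ 5 := Nat.mul_le_mul_right _ hNK
        _ = N ^ 6 := by ring
        _ ≤ _ := h2
    have h4 : 64 * N ^ 5 ≤ W := Nat.le_of_mul_le_mul_left h3 (by positivity)
    have h5 : m ≤ N := by
      have h6 : A ⊆ Finset.Ico N (2 * N) := by
        intro p hp
        rw [Finset.mem_Ico]
        exact hA p hp
      have := Finset.card_le_card h6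
      rw [Nat.card_Ico] at this
      omega
    have h6 : 2 * N * m ≤ 2 * N * N := Nat.mul_le_mul_left _ h5
    have h7 : 2 * N * N ≤ 32 * N ^ 5 := by
      have : N * N ≤ N ^ 5 := by
        calc N * N = N ^ 2 := by ring
          _ ≤ N ^ 5 := Nat.pow_le_pow_right (by omega) (by norm_num)
      nlinarith
    have h8 : (2 * N) ^ 5 = 32 * N ^ 5 := by ring
    omega
  -- the residues
  have hd2 : d ^ 2 ≤ A.card := by
    have h1 : d ^ 2 ≤ (4 * K) ^ 2 := Nat.pow_le_pow_left hd4.le 2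
    have h2 : K ^ 2 ≤ K ^ 5 := Nat.pow_le_pow_right hK (by norm_num)
    have h3 : (4 * K) ^ 2 = 16 * K ^ 2 := by ring
    omega
  have hcop : ∀ p ∈ A, p.Coprime (d ^ 2) := by
    intro p hp
    have h1 := (hA p hp).1
    have h2 : ¬ p ∣ d := fun h => by
      have := Nat.le_of_dvd hd h
      omega
    exact Nat.Coprime.pow_right 2 ((Nat.Prime.coprime_iff_not_dvd (hprime p hp)).2 h2)
  have hd0 : 0 < d ^ 2 := by positivity
  refine ⟨U I B d ∪ A.image (fun p => {p}), ?_, base I B d + 2 * N * m, ?_⟩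
  · intro s hs
    rw [Finset.mem_union, Finset.mem_image] at hs
    rcases hs with hs | ⟨p, hp, rfl⟩
    · exact ⟨(mem_U H hs).1, (mem_U H hs).2.1⟩
    · simp [hp]
  · intro z hz1 hz2
    obtain ⟨t, ht, hmod⟩ := residues (d ^ 2) hd0 A hcop hd2 (z - base I B d)
    have ht2 : ∑ p ∈ t, p ≤ 2 * N * m := by
      calc ∑ p ∈ t, p ≤ ∑ p ∈ A, p := Finset.sum_le_sum_of_subset ht
        _ ≤ ∑ p ∈ A, 2 * N := Finset.sum_le_sum fun p hp => (hA p hp).2.le
        _ = _ := by rw [Finset.sum_const, smul_eq_mul, mul_comm]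
    have hdvd : d ^ 2 ∣ z - base I B d - ∑ p ∈ t, p :=
      (Nat.modEq_iff_dvd' (by omega)).1 hmod
    obtain ⟨y, hy⟩ := hdvd
    have hyW : y ≤ W := by
      have h1 : d ^ 2 * y ≤ (2 * N) ^ 5 + 2 * N * m := by omega
      have h2 : y ≤ d ^ 2 * y := Nat.le_mul_of_pos_left y hd0
      omega
    obtain ⟨S, hS, hyS⟩ := hfill y hyW
    refine ⟨fam I B d S ∪ t.image (fun p => {p}), ?_, ?_⟩
    · exact Finset.union_subset_union (fam_subset S) (Finset.image_subset_image ht)
    · rw [Finset.sum_union, sum_fam H hd S hS, ← hyS, ← hy,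
        Finset.sum_image (fun a _ b _ h => Finset.singleton_injective h)]
      · have h1 : ∑ p ∈ t, val {p} = ∑ p ∈ t, p :=
          Finset.sum_congr rfl fun p _ => val_singleton p
        rw [h1]
        omega
      · rw [Finset.disjoint_left]
        intro s hs hs'
        rw [Finset.mem_image] at hs'
        obtain ⟨p, _, rfl⟩ := hs'
        have := (mem_U H (fam_subset S hs)).2.2
        rw [Finset.card_singleton] at this
        omega

end Pool.Agent.R465.Weird
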