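import Mathlib
import Pool.Agent.R465.Weird.Init
set_option autoImplicit false

/-!
# One window

`Q` is a set of primes less than `2 N`, and `A` is the set of its elements in `[N, 2 N)`, which has at
least `N / K` elements.
-/

namespace Pool.Agent.R465.Weird
open Finset

/-- exchange of a part of `e` against a smaller number prime to `e` -/
theorem exch {Q e g' : Finset ℕ} (hQ : ∀ p ∈ Q, p.Prime) (he : e ⊆ Q) (hg' : g' ⊆ Q \ e)
    (G : Finset (Finset ℕ)) (hG : ∀ g ∈ G, g ⊆ e ∧ val g' < val g) :
    (val e : ℝ) * ((val g' : ℝ) * ∑ g ∈ G, 1 / (val g : ℝ)) ≤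
      ((∑ s ∈ Q.powerset.filter (fun s => val s < val e), val s : ℕ) : ℝ) := by
  classical
  have hg'Q : g' ⊆ Q := hg'.trans Finset.sdiff_subset
  have hdis : Disjoint e g' := by
    rw [Finset.disjoint_right]
    intro x hx hxe
    exact (Finset.mem_sdiff.1 (hg' hx)).2 hxe
  have hval : ∀ g ∈ G, val (e \ g ∪ g') * val g = val e * val g' := by
    intro g hg
    have h1 : Disjoint (e \ g) g' := hdis.mono_left Finset.sdiff_subset
    have h2 : val (e \ g) * val g = val e := by
      have := val_union (s := e \ g) (t := g) Finset.sdiff_disjoint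
      rw [← this, Finset.sdiff_union_of_subset (hG g hg).1]
    rw [val_union h1, ← h2]
    ring
  have hinj : Set.InjOn (fun g => e \ g ∪ g') (G : Set (Finset ℕ)) := by
    intro g hg g₂ hg₂ heq
    simp only at heq
    have h1 : e \ g = e \ g₂ := by
      have h2 : ∀ h : Finset ℕ, (e \ h ∪ g') \ g' = e \ h := by
        intro h
        rw [Finset.union_sdiff_right]
        exact Finset.sdiff_eq_self_of_disjoint (hdis.mono_left Finset.sdiff_subset)
      rw [← h2 g, ← h2 g₂, heq]
    have h3 : ∀ h : Finset ℕ, h ⊆ e → e \ (e \ h) = h := fun h hh =>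
      Finset.sdiff_sdiff_eq_self hh
    rw [← h3 g (hG g hg).1, ← h3 g₂ (hG g₂ hg₂).1, h1]
  have hpos : ∀ s : Finset ℕ, s ⊆ Q → (0 : ℝ) < val s := fun s hs => by
    exact_mod_cast val_pos (fun p hp => hQ p (hs hp))
  calc (val e : ℝ) * ((val g' : ℝ) * ∑ g ∈ G, 1 / (val g : ℝ)) =
      ∑ g ∈ G, (val (e \ g ∪ g') : ℝ) := by
        rw [← mul_assoc, Finset.mul_sum]
        refine Finset.sum_congr rfl fun g hg => ?_
        have h1 := hval g hg
        have h2 := hpos g ((hG g hg).1.trans he)
        rw [mul_one_div, div_eq_iff h2.ne']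
        exact_mod_cast h1.symm
    _ = ∑ s ∈ G.image (fun g => e \ g ∪ g'), (val s : ℝ) := by
        rw [Finset.sum_image hinj]
    _ ≤ ∑ s ∈ Q.powerset.filter (fun s => val s < val e), (val s : ℝ) := by
        refine Finset.sum_le_sum_of_subset_of_nonneg ?_ (fun _ _ _ => Nat.cast_nonneg _)
        intro s hs
        rw [Finset.mem_image] at hs
        obtain ⟨g, hg, rfl⟩ := hs
        rw [Finset.mem_filter, Finset.mem_powerset]
        refine ⟨Finset.union_subset (Finset.sdiff_subset.trans he) hg'Q, ?_⟩
        have h1 := hval g hg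
        have h2 := (hG g hg).2
        have h3 : 0 < val e := val_pos (fun p hp => hQ p (he hp))
        by_contra hcon
        push Not at hcon
        have h4 : val e * val g ≤ val e * val g' := by
          calc val e * val g ≤ val (e \ g ∪ g') * val g := Nat.mul_le_mul_right _ hcon
            _ = _ := h1
        have := Nat.le_of_mul_le_mul_left h4 h3
        omega
    _ = _ := by push_cast; rfl

/-- the binomial coefficients are large -/
theorem choose_ge {N m : ℕ} (h2 : 8 * N ≤ m.choose 2) : ∀ j, 2 ≤ j → j ≤ m / 8 + 1 →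
    2 ^ (j + 1) * N ≤ m.choose j := by
  intro j hj
  induction j, hj using Nat.le_induction with
  | base => intro _; simpa using h2
  | succ j hj ih =>
    intro hj2
    have h3 := ih (by omega)
    have h4 := Nat.choose_succ_right_eq m j
    have h5 : 2 * (j + 1) ≤ m - j := by omega
    have h6 : m.choose j * (2 * (j + 1)) ≤ m.choose (j + 1) * (j + 1) := by
      rw [h4]; exact Nat.mul_le_mul_left _ h5
    have h7 : 2 * m.choose j ≤ m.choose (j + 1) := by
      have : (2 * m.choose j) * (j + 1) ≤ m.choose (j + 1) * (j + 1) := by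
        calc (2 * m.choose j) * (j + 1) = m.choose j * (2 * (j + 1)) := by ring
          _ ≤ _ := h6
      exact Nat.le_of_mul_le_mul_right this (by omega)
    calc 2 ^ (j + 1 + 1) * N = 2 * (2 ^ (j + 1) * N) := by ring
      _ ≤ 2 * m.choose j := Nat.mul_le_mul_left _ h3
      _ ≤ _ := h7

/-- the hypotheses on a window -/
structure WData (N K : ℕ) (Q A : Finset ℕ) : Prop where
  K_pos : 0 < K
  NK : 2 ^ 20 * K ^ 6 ≤ N
  prime : ∀ p ∈ Q, p.Prime
  lt : ∀ p ∈ Q, p < 2 * N
  memA : ∀ p, p ∈ A ↔ p ∈ Q ∧ N ≤ p
  card : N ≤ K * A.card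
  desc : ∀ F ⊆ Q, F.Nonempty → val F < 64 * K →
    (2 : ℝ) ≤ val F * ∑ q ∈ Q.filter (fun q => val F < q), 1 / (q : ℝ)
  sum : (2 : ℝ) ≤ ∑ q ∈ Q, 1 / (q : ℝ)

namespace WData
variable {N K : ℕ} {Q A : Finset ℕ}

theorem m_ge (H : WData N K Q A) : 2 ^ 20 * K ^ 5 ≤ A.card := by
  have : K * (2 ^ 20 * K ^ 5) ≤ K * A.card := by
    calc K * (2 ^ 20 * K ^ 5) = 2 ^ 20 * K ^ 6 := by ring
      _ ≤ N := H.NK
      _ ≤ K * A.card := H.card
  exact Nat.le_of_mul_le_mul_left this H.K_pos

theorem AQ (H : WData N K Q A) : A ⊆ Q := fun p hp => ((H.memA p).1 hp).1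

theorem m_le (H : WData N K Q A) : A.card ≤ N := by
  have h6 : A ⊆ Finset.Ico N (2 * N) := by
    intro p hp
    rw [Finset.mem_Ico]
    exact ⟨((H.memA p).1 hp).2, H.lt p (H.AQ hp)⟩
  have := Finset.card_le_card h6
  rw [Nat.card_Ico] at this
  omega

/-- the main estimate: the smaller divisors have a large sum -/
theorem big (H : WData N K Q A) {e : Finset ℕ} (he : e ⊆ Q) (hne : e ≠ Q)
    (hcard : A.card / 8 + 2 ≤ e.card) :
    2 * val e ≤ ∑ s ∈ Q.powerset.filter (fun s => val s < val e), val s := by
  classical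
  set m := A.card with hm
  have hK := H.K_pos
  have hmge := H.m_ge
  have hmle := H.m_le
  have hprime := H.prime
  have hK1 : 1 ≤ K ^ 5 := Nat.one_le_pow _ _ hK
  have hN0 : 0 < N := by omega
  have hNr : (0 : ℝ) < N := by exact_mod_cast hN0
  have hF : (Q \ e).Nonempty := by
    rw [Finset.sdiff_nonempty]
    intro h
    exact hne (Finset.Subset.antisymm he h)
  set F := Q \ e with hFdef
  have hFQ : F ⊆ Q := Finset.sdiff_subset
  have hFp : ∀ p ∈ F, p.Prime := fun p hp => hprime p (hFQ hp)
  -- it suffices to find `g'` and `G`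
  suffices hsuff : ∃ g' ⊆ F, ∃ G : Finset (Finset ℕ), (∀ g ∈ G, g ⊆ e ∧ val g' < val g) ∧
      (2 : ℝ) ≤ (val g' : ℝ) * ∑ g ∈ G, 1 / (val g : ℝ) by
    obtain ⟨g', hg', G, hG, h2⟩ := hsuff
    have h1 := exch hprime he hg' G hG
    have h3 : (2 : ℝ) * val e ≤ (val e : ℝ) * ((val g' : ℝ) * ∑ g ∈ G, 1 / (val g : ℝ)) := by
      have : (0 : ℝ) ≤ val e := Nat.cast_nonneg _
      nlinarith
    exact_mod_cast h3.trans h1
  -- the large primes of `e`
  set E := e.filter (fun q => m ≤ 16 * q) with hE
  have hEcard : m ≤ 16 * E.card := by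
    have h1 : e.card = E.card + (e.filter (fun q => ¬ m ≤ 16 * q)).card :=
      (Finset.card_filter_add_card_filter_not _).symm
    have h2 : (e.filter (fun q => ¬ m ≤ 16 * q)).card ≤ (m + 15) / 16 := by
      have : e.filter (fun q => ¬ m ≤ 16 * q) ⊆ Finset.range ((m + 15) / 16) := by
        intro q hq
        rw [Finset.mem_filter] at hq
        rw [Finset.mem_range]
        omega
      have h3 := Finset.card_le_card this
      rwa [Finset.card_range] at h3
    omega
  have hEe : E ⊆ e := Finset.filter_subset _ _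
  have hEb : ∀ q ∈ E, m ≤ 16 * q ∧ q < 2 * N := fun q hq =>
    ⟨(Finset.mem_filter.1 hq).2, H.lt q (he (hEe hq))⟩
  by_cases hα : ∃ p ∈ F, m ≤ 16 * p
  · -- a large prime in `F`
    obtain ⟨p, hp, hpm⟩ := hα
    refine ⟨{p}, Finset.singleton_subset_iff.2 hp, E.powersetCard 2, ?_, ?_⟩
    · intro g hg
      rw [Finset.mem_powersetCard] at hg
      refine ⟨hg.1.trans hEe, ?_⟩
      rw [val_singleton]
      obtain ⟨x, y, hxy, rfl⟩ := Finset.card_eq_two.1 hg.2
      have hx := hEb x (hg.1 (by simp))
      have hy := hEb y (hg.1 (by simp))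
      have h1 : val {x, y} = x * y := by unfold val; rw [Finset.prod_pair hxy]
      rw [h1]
      have hp2 := H.lt p (hFQ hp)
      have h2 : m * m ≤ (16 * x) * (16 * y) := Nat.mul_le_mul hx.1 hy.1
      have h3 : 512 * N < m * m := by
        have h4 : K * (512 * N) < K * (m * m) := by
          have h5 : 512 * K < m := by
            have : K ≤ K ^ 5 := Nat.le_self_pow (by norm_num) K
            omega
          calc K * (512 * N) = (512 * K) * N := by ring
            _ < m * N := Nat.mul_lt_mul_of_pos_right h5 hN0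
            _ ≤ m * (K * m) := Nat.mul_le_mul_left _ H.card
            _ = _ := by ring
        exact Nat.lt_of_mul_lt_mul_left h4
      nlinarith
    · rw [val_singleton]
      have hE2 : 2 ≤ E.card := by omega
      have hch : E.card ^ 2 ≤ 4 * E.card.choose 2 := by
        rw [Nat.choose_two_right]
        obtain ⟨b, hb⟩ : ∃ b, E.card = b + 2 := ⟨E.card - 2, by omega⟩
        rw [hb]
        have h1 : (b + 2) * (b + 2 - 1) / 2 * 2 = (b + 2) * (b + 2 - 1) :=
          Nat.div_mul_cancel (Nat.even_mul_pred_self _).two_dvd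
        have h2 : b + 2 - 1 = b + 1 := by omega
        rw [h2] at h1 ⊢
        set X := (b + 2) * (b + 1) / 2 with hX
        clear_value X
        have h3 : (b + 2) ^ 2 = (b + 2) * b + 2 * (b + 2) := by ring
        have h4 : (b + 2) * (b + 1) = (b + 2) * b + (b + 2) := by ring
        have h5 : 0 ≤ (b + 2) * b := Nat.zero_le _
        omega
      have hlow : (E.card.choose 2 : ℝ) * (1 / (4 * (N : ℝ) ^ 2)) ≤
          ∑ g ∈ E.powersetCard 2, 1 / (val g : ℝ) := by
        rw [← Finset.card_powersetCard, ← nsmul_eq_mul, ← Finset.sum_const]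
        refine Finset.sum_le_sum fun g hg => ?_
        rw [Finset.mem_powersetCard] at hg
        have h1 : val g ≤ (2 * N) ^ 2 := by
          have := val_le_pow (s := g) (B := 2 * N) (fun q hq => (hEb q (hg.1 hq)).2.le)
          rwa [hg.2] at this
        have h2 : 0 < val g := val_pos (fun q hq => hprime q (he (hEe (hg.1 hq))))
        apply one_div_le_one_div_of_le (by exact_mod_cast h2)
        have h3 : ((val g : ℕ) : ℝ) ≤ (((2 * N) ^ 2 : ℕ) : ℝ) := by exact_mod_cast h1
        push_cast at h3
        nlinarith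
      have hnat : 2 ^ 17 * N ^ 2 ≤ m ^ 3 := by
        have h1 : K ^ 3 * (2 ^ 17 * N ^ 2) ≤ K ^ 3 * m ^ 3 := by
          have h2 : K ^ 3 ≤ K ^ 6 := Nat.pow_le_pow_right hK (by norm_num)
          calc K ^ 3 * (2 ^ 17 * N ^ 2) = 2 ^ 17 * K ^ 3 * N ^ 2 := by ring
            _ ≤ N * N ^ 2 := Nat.mul_le_mul_right _ (by
                have := H.NK
                omega)
            _ = N ^ 3 := by ring
            _ ≤ (K * m) ^ 3 := Nat.pow_le_pow_left H.card 3
            _ = _ := by ring
        exact Nat.le_of_mul_le_mul_left h1 (by positivity)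
      -- `2 ≤ p * choose / (4 N^2)`
      have hnat2 : 8 * N ^ 2 ≤ p * E.card.choose 2 := by
        have h1 : 16 * 256 * 4 * (8 * N ^ 2) ≤ 16 * 256 * 4 * (p * E.card.choose 2) := by
          calc 16 * 256 * 4 * (8 * N ^ 2) = 2 ^ 17 * N ^ 2 := by ring
            _ ≤ m ^ 3 := hnat
            _ = m * m ^ 2 := by ring
            _ ≤ (16 * p) * (16 * E.card) ^ 2 := Nat.mul_le_mul hpm (Nat.pow_le_pow_left hEcard 2)
            _ = 16 * 256 * (p * E.card ^ 2) := by ring
            _ ≤ 16 * 256 * (p * (4 * E.card.choose 2)) :=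
                Nat.mul_le_mul_left _ (Nat.mul_le_mul_left _ hch)
            _ = _ := by ring
        exact Nat.le_of_mul_le_mul_left h1 (by norm_num)
      have hr : (8 : ℝ) * (N : ℝ) ^ 2 ≤ (p : ℝ) * (E.card.choose 2 : ℝ) := by exact_mod_cast hnat2
      calc (2 : ℝ) = 8 * (N : ℝ) ^ 2 * (1 / (4 * (N : ℝ) ^ 2)) := by
            field_simp; norm_num
        _ ≤ (p : ℝ) * (E.card.choose 2 : ℝ) * (1 / (4 * (N : ℝ) ^ 2)) :=
            mul_le_mul_of_nonneg_right hr (by positivity)
        _ = (p : ℝ) * ((E.card.choose 2 : ℝ) * (1 / (4 * (N : ℝ) ^ 2))) := by ring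
        _ ≤ _ := mul_le_mul_of_nonneg_left hlow (Nat.cast_nonneg _)
  · push Not at hα
    by_cases hδ : val F < 64 * K
    · -- `F` is small
      have h1 := H.desc F hFQ hF hδ
      refine ⟨F, Finset.Subset.refl _, (Q.filter (fun q => val F < q)).image (fun q => {q}), ?_, ?_⟩
      · intro g hg
        rw [Finset.mem_image] at hg
        obtain ⟨q, hq, rfl⟩ := hg
        rw [Finset.mem_filter] at hq
        rw [val_singleton, Finset.singleton_subset_iff]
        refine ⟨?_, hq.2⟩
        by_contra hqe
        have hqF : q ∈ F := by rw [hFdef, Finset.mem_sdiff]; exact ⟨hq.1, hqe⟩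
        have h2 : q ∣ val F := Finset.dvd_prod_of_mem _ hqF
        have := Nat.le_of_dvd (val_pos hFp) h2
        omega
      · rw [Finset.sum_image (fun a _ b _ h => Finset.singleton_injective h)]
        simp only [val_singleton]
        exact h1
    · push Not at hδ
      -- a divisor of medium size
      obtain ⟨g', hg'F, hg'1, hg'2⟩ : ∃ g' ⊆ F, 64 * K ≤ val g' ∧ 16 * val g' < m := by
        obtain ⟨g', hg'F, hmin⟩ := exists_minimal_le_of_wellFoundedLT
          (fun u : Finset ℕ => 64 * K ≤ val u) F hδ
        refine ⟨g', hg'F, hmin.prop, ?_⟩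
        have hmin2 : ∀ u, u ⊆ g' → u ≠ g' → val u < 64 * K := by
          intro u hu hne
          by_contra hcon
          push Not at hcon
          exact hne (Finset.Subset.antisymm hu (hmin.le_of_le hcon hu))
        by_cases hbig : ∃ p ∈ g', 64 * K ≤ p
        · obtain ⟨p, hp, hpK⟩ := hbig
          have h1 : g' = {p} := by
            by_contra hne'
            have := hmin2 {p} (Finset.singleton_subset_iff.2 hp) (fun h => hne' h.symm)
            rw [val_singleton] at this
            omega
          rw [h1, val_singleton]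
          exact hα p (hg'F hp)
        · push Not at hbig
          have hne' : g'.Nonempty := by
            rw [Finset.nonempty_iff_ne_empty]
            intro h
            have := hmin.prop
            rw [h, val_empty] at this
            omega
          obtain ⟨p, hp⟩ := hne'
          have h1 := hmin2 (g'.erase p) (Finset.erase_subset _ _) (fun h => by
            have := Finset.notMem_erase p g'
            rw [h] at this
            exact this hp)
          have h2 : val g' = p * val (g'.erase p) := (Finset.mul_prod_erase g' _ hp).symm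
          have h3 := hbig p hp
          have h4 : val g' ≤ (64 * K) * (64 * K) := by
            rw [h2]; exact Nat.mul_le_mul h3.le h1.le
          have h5 : K * K ≤ K ^ 5 := by
            calc K * K = K ^ 2 := by ring
              _ ≤ K ^ 5 := Nat.pow_le_pow_right hK (by norm_num)
          nlinarith
      refine ⟨g', hg'F, E.image (fun q => {q}), ?_, ?_⟩
      · intro g hg
        rw [Finset.mem_image] at hg
        obtain ⟨q, hq, rfl⟩ := hg
        rw [val_singleton, Finset.singleton_subset_iff]
        have := hEb q hq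
        exact ⟨hEe hq, by omega⟩
      · rw [Finset.sum_image (fun a _ b _ h => Finset.singleton_injective h)]
        simp only [val_singleton]
        have h1 : (E.card : ℝ) * (1 / (2 * (N : ℝ))) ≤ ∑ q ∈ E, 1 / (q : ℝ) := by
          rw [← nsmul_eq_mul, ← Finset.sum_const]
          refine Finset.sum_le_sum fun q hq => ?_
          have h2 : 0 < q := (hprime q (he (hEe hq))).pos
          have h3 := (hEb q hq).2
          apply one_div_le_one_div_of_le (by exact_mod_cast h2)
          exact_mod_cast h3.le
        have h2 : 4 * N ≤ val g' * E.card := by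
          have h3 : 16 * (4 * N) ≤ 16 * (val g' * E.card) := by
            calc 16 * (4 * N) = 64 * N := by ring
              _ ≤ 64 * (K * m) := Nat.mul_le_mul_left _ H.card
              _ = (64 * K) * m := by ring
              _ ≤ val g' * (16 * E.card) := Nat.mul_le_mul hg'1 hEcard
              _ = _ := by ring
          omega
        have h3 : (4 : ℝ) * N ≤ (val g' : ℝ) * E.card := by exact_mod_cast h2
        calc (2 : ℝ) = 4 * (N : ℝ) * (1 / (2 * (N : ℝ))) := by field_simp; norm_num
          _ ≤ (val g' : ℝ) * E.card * (1 / (2 * (N : ℝ))) :=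
              mul_le_mul_of_nonneg_right h3 (by positivity)
          _ = (val g' : ℝ) * ((E.card : ℝ) * (1 / (2 * (N : ℝ)))) := by ring
          _ ≤ _ := mul_le_mul_of_nonneg_left h1 (Nat.cast_nonneg _)

end WData

end Pool.Agent.R465.Weird
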