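import Mathlib
import Pool.Agent.R465.Weird.Window
set_option autoImplicit false

/-!
# The product of a window is pseudoperfect
-/

namespace Pool.Agent.R465.Weird
open Finset

namespace WData
variable {N K : ℕ} {Q A : Finset ℕ}

/-- the sum of the values of a family of subsets of `A` of size at most four -/
theorem sum_small (H : WData N K Q A) (V : Finset (Finset ℕ))
    (hV : ∀ s ∈ V, s ⊆ A ∧ s.card ≤ 4) : ∑ s ∈ V, val s ≤ (2 * N) ^ 9 := by
  classical
  have hmle := H.m_le
  have hmge := H.m_ge
  have hK1 : 1 ≤ K ^ 5 := Nat.one_le_pow _ _ H.K_pos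
  have hN : 5 ≤ N := by omega
  have h1 : ∀ s ∈ V, val s ≤ (2 * N) ^ 4 := by
    intro s hs
    have h2 := val_le_pow (s := s) (B := 2 * N)
      (fun q hq => (H.lt q (H.AQ ((hV s hs).1 hq))).le)
    exact h2.trans (Nat.pow_le_pow_right (by omega) (hV s hs).2)
  have h2 : V.card ≤ 5 * N ^ 4 := by
    have h3 : V ⊆ (Finset.range 5).biUnion (fun j => A.powersetCard j) := by
      intro s hs
      rw [Finset.mem_biUnion]
      refine ⟨s.card, by rw [Finset.mem_range]; have := (hV s hs).2; omega, ?_⟩
      rw [Finset.mem_powersetCard]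
      exact ⟨(hV s hs).1, rfl⟩
    calc V.card ≤ ((Finset.range 5).biUnion (fun j => A.powersetCard j)).card :=
          Finset.card_le_card h3
      _ ≤ ∑ j ∈ Finset.range 5, (A.powersetCard j).card := Finset.card_biUnion_le
      _ ≤ ∑ j ∈ Finset.range 5, N ^ 4 := by
          refine Finset.sum_le_sum fun j hj => ?_
          rw [Finset.card_powersetCard]
          rw [Finset.mem_range] at hj
          calc A.card.choose j ≤ A.card ^ j := Nat.choose_le_pow _ _
            _ ≤ N ^ j := Nat.pow_le_pow_left hmle j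
            _ ≤ N ^ 4 := Nat.pow_le_pow_right (by omega) (by omega)
      _ = 5 * N ^ 4 := by rw [Finset.sum_const, Finset.card_range, smul_eq_mul]
  calc ∑ s ∈ V, val s ≤ ∑ _s ∈ V, (2 * N) ^ 4 := Finset.sum_le_sum h1
    _ = V.card * (2 * N) ^ 4 := by rw [Finset.sum_const, smul_eq_mul]
    _ ≤ (5 * N ^ 4) * (2 * N) ^ 4 := Nat.mul_le_mul_right _ h2
    _ ≤ (N * N ^ 4) * (2 * N) ^ 4 := by
        apply Nat.mul_le_mul_right
        exact Nat.mul_le_mul_right _ hN
    _ = 16 * N ^ 9 := by ring
    _ ≤ 512 * N ^ 9 := Nat.mul_le_mul_right _ (by norm_num)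
    _ = _ := by ring

/-- the divisors can be added one after another -/
theorem step (H : WData N K Q A) (V : Finset (Finset ℕ))
    (hV : ∀ s ∈ V, s ⊆ A ∧ s.card ≤ 4) {e : Finset ℕ} (he : e ⊆ Q) (hne : e ≠ Q) :
    val e ≤ (2 * N) ^ 5 + 1 +
      ∑ s ∈ ((Q.powerset \ V).erase Q).filter (fun s => val s < val e), val s := by
  classical
  set m := A.card with hm
  have hmle := H.m_le
  have hmge := H.m_ge
  have hK1 : 1 ≤ K ^ 5 := Nat.one_le_pow _ _ H.K_pos
  have hN0 : 0 < N := by omega
  have heQ : val e < val Q := val_lt_of_ssubset H.prime (Finset.ssubset_iff_subset_ne.2 ⟨he, hne⟩)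
  rcases Nat.lt_or_ge ((2 * N) ^ (m / 8 + 1)) (val e) with hbig | hsmall
  · -- large `e`
    have hcard : m / 8 + 2 ≤ e.card := by
      by_contra hcon
      push Not at hcon
      have h1 := val_le_pow (s := e) (B := 2 * N) (fun q hq => (H.lt q (he hq)).le)
      have h2 : (2 * N) ^ e.card ≤ (2 * N) ^ (m / 8 + 1) :=
        Nat.pow_le_pow_right (by omega) (by omega)
      omega
    have h1 := H.big he hne hcard
    have h2 := H.sum_small V hV
    have h3 : (2 * N) ^ 9 ≤ val e := by
      have : (2 * N) ^ 9 ≤ (2 * N) ^ (m / 8 + 1) := Nat.pow_le_pow_right (by omega) (by omega)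
      omega
    have h4 : ∑ s ∈ Q.powerset.filter (fun s => val s < val e), val s ≤
        ∑ s ∈ V, val s +
          ∑ s ∈ ((Q.powerset \ V).erase Q).filter (fun s => val s < val e), val s := by
      have h5 : Q.powerset.filter (fun s => val s < val e) ⊆
          V ∪ ((Q.powerset \ V).erase Q).filter (fun s => val s < val e) := by
        intro s hs
        rw [Finset.mem_filter, Finset.mem_powerset] at hs
        rw [Finset.mem_union, Finset.mem_filter, Finset.mem_erase, Finset.mem_sdiff,
          Finset.mem_powerset]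
        by_cases hsV : s ∈ V
        · exact Or.inl hsV
        · right
          refine ⟨⟨?_, hs.1, hsV⟩, hs.2⟩
          rintro rfl
          omega
      calc ∑ s ∈ Q.powerset.filter (fun s => val s < val e), val s ≤
          ∑ s ∈ V ∪ ((Q.powerset \ V).erase Q).filter (fun s => val s < val e), val s :=
            Finset.sum_le_sum_of_subset h5
        _ ≤ _ := by
            have := Finset.sum_union_inter (s₁ := V)
              (s₂ := ((Q.powerset \ V).erase Q).filter (fun s => val s < val e)) (f := val)
            omega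
    omega
  · rcases Nat.lt_or_ge ((2 * N) ^ 5) (val e) with h5 | h5
    · -- medium `e`
      have hex : ∃ i, val e ≤ (2 * N) ^ i := ⟨_, hsmall⟩
      set i := Nat.find hex with hi
      have hi1 : val e ≤ (2 * N) ^ i := Nat.find_spec hex
      have hi2 : i ≤ m / 8 + 1 := Nat.find_min' hex hsmall
      have hi3 : 6 ≤ i := by
        by_contra hcon
        push Not at hcon
        have : (2 * N) ^ i ≤ (2 * N) ^ 5 := Nat.pow_le_pow_right (by omega) (by omega)
        omega
      obtain ⟨j, hj⟩ : ∃ j, i = j + 1 := ⟨i - 1, by omega⟩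
      have hj1 : (2 * N) ^ j < val e := by
        have := Nat.find_min hex (m := j) (by omega)
        omega
      have hchoose2 : 8 * N ≤ m.choose 2 := by
        have h7 : K * (64 * N) ≤ K * (m * m) := by
          have h8 : 64 * K ≤ m := by
            have : K ≤ K ^ 5 := Nat.le_self_pow (by norm_num) K
            omega
          calc K * (64 * N) = (64 * K) * N := by ring
            _ ≤ m * N := Nat.mul_le_mul_right _ h8
            _ ≤ m * (K * m) := Nat.mul_le_mul_left _ H.card
            _ = _ := by ring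
        have h9 : 64 * N ≤ m * m := Nat.le_of_mul_le_mul_left h7 H.K_pos
        rw [Nat.choose_two_right]
        rw [Nat.le_div_iff_mul_le (by norm_num)]
        obtain ⟨b, hb⟩ : ∃ b, m = b + 2 := ⟨m - 2, by omega⟩
        rw [hb] at h9 ⊢
        have h2 : b + 2 - 1 = b + 1 := by omega
        rw [h2]
        have h3 : (b + 2) * (b + 2) = b * b + 4 * b + 4 := by ring
        have h4 : (b + 2) * (b + 1) = b * b + 3 * b + 2 := by ring
        have h6 : 0 ≤ b * b := Nat.zero_le _
        omega
      have hch := choose_ge hchoose2 j (by omega) (by omega)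
      have hsub : A.powersetCard j ⊆
          ((Q.powerset \ V).erase Q).filter (fun s => val s < val e) := by
        intro s hs
        rw [Finset.mem_powersetCard] at hs
        have h6 : val s < val e := by
          have h7 := val_le_pow (s := s) (B := 2 * N)
            (fun q hq => (H.lt q (H.AQ (hs.1 hq))).le)
          rw [hs.2] at h7
          omega
        rw [Finset.mem_filter, Finset.mem_erase, Finset.mem_sdiff, Finset.mem_powerset]
        refine ⟨⟨?_, hs.1.trans H.AQ, ?_⟩, h6⟩
        · rintro rfl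
          omega
        · intro hsV
          have := (hV s hsV).2
          omega
      have hlow : (2 * N) ^ (j + 1) ≤ ∑ s ∈ A.powersetCard j, val s := by
        calc (2 * N) ^ (j + 1) = (2 ^ (j + 1) * N) * N ^ j := by
              rw [mul_pow, pow_succ N j]; ring
          _ ≤ m.choose j * N ^ j := Nat.mul_le_mul_right _ hch
          _ = ∑ _s ∈ A.powersetCard j, N ^ j := by
              rw [Finset.sum_const, Finset.card_powersetCard, smul_eq_mul]
          _ ≤ _ := by
              refine Finset.sum_le_sum fun s hs => ?_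
              rw [Finset.mem_powersetCard] at hs
              have := pow_le_val (s := s) (B := N) (fun p hp => ((H.memA p).1 (hs.1 hp)).2)
              rwa [hs.2] at this
      have h8 := Finset.sum_le_sum_of_subset (f := val) hsub
      rw [hj] at hi1
      omega
    · omega

/-- **The product of the primes of a window is a sum of proper divisors.** -/
theorem pseudo_window (H : WData N K Q A) :
    ∃ S : Finset (Finset ℕ), (∀ s ∈ S, s ⊂ Q) ∧ ∑ s ∈ S, val s = val Q := by
  classical
  set m := A.card with hm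
  have hmle := H.m_le
  have hmge := H.m_ge
  have hK1 : 1 ≤ K ^ 5 := Nat.one_le_pow _ _ H.K_pos
  have hN0 : 0 < N := by omega
  obtain ⟨V, hV, x, hx⟩ := initial H.K_pos H.NK A (fun p hp => H.prime p (H.AQ hp))
    (fun p hp => ⟨((H.memA p).1 hp).2, H.lt p (H.AQ hp)⟩) H.card
  have hVsum := H.sum_small V hV
  have hQpos : 0 < val Q := val_pos H.prime
  -- `(2 N) ^ 9 ≤ val Q`
  have hQbig : (2 * N) ^ 9 ≤ val Q := by
    have h1 : val A ≤ val Q :=
      Finset.prod_le_prod_of_subset_of_one_le' H.AQ (fun q hq _ => (H.prime q hq).pos)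
    have h2 : N ^ m ≤ val A := pow_le_val (fun p hp => ((H.memA p).1 hp).2)
    have h3 : (2 * N) ^ 9 ≤ N ^ m := by
      calc (2 * N) ^ 9 ≤ (N * N) ^ 9 := Nat.pow_le_pow_left (Nat.mul_le_mul_right _ (by omega)) 9
        _ = N ^ 18 := by ring
        _ ≤ N ^ m := Nat.pow_le_pow_right hN0 (by omega)
    omega
  -- the sum of all the divisors
  have hsigma : 3 * val Q ≤ ∑ s ∈ Q.powerset, val s := by
    rw [sum_val_powerset]
    have h1 : ((∏ p ∈ Q, (1 + p) : ℕ) : ℝ) = (val Q : ℝ) * ∏ p ∈ Q, (1 + 1 / (p : ℝ)) := by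
      unfold val
      push_cast
      rw [← Finset.prod_mul_distrib]
      refine Finset.prod_congr rfl fun p hp => ?_
      have : (p : ℝ) ≠ 0 := by exact_mod_cast (H.prime p hp).ne_zero
      field_simp
      ring
    have h2 : (1 : ℝ) + ∑ p ∈ Q, 1 / (p : ℝ) ≤ ∏ p ∈ Q, (1 + 1 / (p : ℝ)) := by
      have : ∀ s : Finset ℕ, (1 : ℝ) + ∑ p ∈ s, 1 / (p : ℝ) ≤ ∏ p ∈ s, (1 + 1 / (p : ℝ)) := by
        intro s
        induction s using Finset.induction_on with
        | empty => simp
        | insert p s hp ih =>
          rw [Finset.sum_insert hp, Finset.prod_insert hp]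
          have h1 : (0 : ℝ) ≤ 1 / (p : ℝ) := by positivity
          have h2 : (0 : ℝ) ≤ ∑ p ∈ s, 1 / (p : ℝ) := Finset.sum_nonneg fun p _ => by positivity
          nlinarith
      exact this Q
    have h3 := H.sum
    have h4 : (0 : ℝ) < val Q := by exact_mod_cast hQpos
    have h5 : (3 : ℝ) * val Q ≤ ((∏ p ∈ Q, (1 + p) : ℕ) : ℝ) := by
      rw [h1]
      nlinarith
    exact_mod_cast h5
  set R := (Q.powerset \ V).erase Q with hR
  have hRsum : val Q ≤ ∑ s ∈ R, val s := by
    have h1 : Q.powerset ⊆ R ∪ (V ∪ {Q}) := by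
      intro s hs
      rw [hR, Finset.mem_union, Finset.mem_union, Finset.mem_erase, Finset.mem_sdiff,
        Finset.mem_singleton]
      by_cases h2 : s = Q
      · exact Or.inr (Or.inr h2)
      · by_cases h3 : s ∈ V
        · exact Or.inr (Or.inl h3)
        · exact Or.inl ⟨h2, hs, h3⟩
    have h2 := Finset.sum_le_sum_of_subset (f := val) h1
    have h3 := Finset.sum_union_inter (s₁ := R) (s₂ := V ∪ {Q}) (f := val)
    have h4 := Finset.sum_union_inter (s₁ := V) (s₂ := {Q}) (f := val)
    rw [Finset.sum_singleton] at h4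
    omega
  -- the base point is small
  have hx0 : x ≤ val Q := by
    obtain ⟨F, hF, hFx⟩ := hx x le_rfl (by omega)
    have := Finset.sum_le_sum_of_subset (f := val) hF
    omega
  have hstep : ∀ e ∈ R, val e ≤ (2 * N) ^ 5 + 1 +
      ∑ s ∈ R.filter (fun s => val s < val e), val s := by
    intro e he
    rw [hR, Finset.mem_erase, Finset.mem_sdiff, Finset.mem_powerset] at he
    exact H.step V hV he.2.1 he.1
  obtain ⟨t, ht, r, hr, hz⟩ := fill val ((2 * N) ^ 5) _ R rfl hstep (val Q - x) (by omega)
  obtain ⟨F, hF, hFx⟩ := hx (x + r) (by omega) (by omega)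
  refine ⟨F ∪ t, ?_, ?_⟩
  · intro s hs
    rw [Finset.mem_union] at hs
    rcases hs with hs | hs
    · have h1 := hV s (hF hs)
      rw [Finset.ssubset_iff_subset_ne]
      refine ⟨h1.1.trans H.AQ, ?_⟩
      rintro rfl
      have h2 := Finset.card_le_card H.AQ
      omega
    · have h1 := ht hs
      rw [hR, Finset.mem_erase, Finset.mem_sdiff, Finset.mem_powerset] at h1
      exact Finset.ssubset_iff_subset_ne.2 ⟨h1.2.1, h1.1⟩
  · rw [Finset.sum_union]
    · omega
    · rw [Finset.disjoint_left]
      intro s hs hs'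
      have h1 := ht hs'
      rw [hR, Finset.mem_erase, Finset.mem_sdiff] at h1
      exact h1.2.2 (hF hs)

end WData

end Pool.Agent.R465.Weird
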