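import Mathlib
import Pool.Agent.R465.Weird.Final
set_option autoImplicit false

/-!
# Integers with a large sum of divisors are pseudoperfect
-/

namespace Pool.Agent.R465.Weird
open Finset

theorem two_pow_ge {k : ℕ} (hk : 100 ≤ k) : 2 ^ 20 * k ^ 12 ≤ 2 ^ k := by
  induction k, hk using Nat.le_induction with
  | base => norm_num
  | succ k hk ih =>
    have h1 : (100 * (k + 1)) ^ 12 ≤ (101 * k) ^ 12 := Nat.pow_le_pow_left (by omega) 12
    have h2 : 100 ^ 12 * (k + 1) ^ 12 ≤ 100 ^ 12 * (2 * k ^ 12) := by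
      calc 100 ^ 12 * (k + 1) ^ 12 = (100 * (k + 1)) ^ 12 := by rw [mul_pow]
        _ ≤ (101 * k) ^ 12 := h1
        _ = 101 ^ 12 * k ^ 12 := by rw [mul_pow]
        _ ≤ (100 ^ 12 * 2) * k ^ 12 := Nat.mul_le_mul_right _ (by norm_num)
        _ = _ := by ring
    have h3 : (k + 1) ^ 12 ≤ 2 * k ^ 12 := Nat.le_of_mul_le_mul_left h2 (by norm_num)
    calc 2 ^ 20 * (k + 1) ^ 12 ≤ 2 ^ 20 * (2 * k ^ 12) := Nat.mul_le_mul_left _ h3
      _ = 2 * (2 ^ 20 * k ^ 12) := by ring
      _ ≤ 2 * 2 ^ k := Nat.mul_le_mul_left _ ih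
      _ = _ := by ring

/-- the elements of `P` in `[2 ^ k, 2 ^ (k + 1))` -/
def level (P : Finset ℕ) (k : ℕ) : Finset ℕ := P.filter (fun p => Nat.log 2 p = k)

/-- the good part of `P` -/
def good (P : Finset ℕ) : Finset ℕ :=
  P.filter (fun p => 100 ≤ Nat.log 2 p ∧
    2 ^ Nat.log 2 p ≤ Nat.log 2 p ^ 2 * (level P (Nat.log 2 p)).card)

theorem level_bounds {P : Finset ℕ} (hP : ∀ p ∈ P, p.Prime) {k p : ℕ} (hp : p ∈ level P k) :
    2 ^ k ≤ p ∧ p < 2 ^ (k + 1) := by
  unfold level at hp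
  rw [Finset.mem_filter] at hp
  obtain ⟨h1, h2⟩ := hp
  have h3 := (hP p h1).pos
  rw [← h2]
  exact ⟨Nat.pow_log_le_self 2 h3.ne', Nat.lt_pow_succ_log_self (by norm_num) p⟩

theorem sum_level {P : Finset ℕ} (hP : ∀ p ∈ P, p.Prime) (k : ℕ) :
    ∑ p ∈ level P k, 1 / (p : ℝ) ≤ ((level P k).card : ℝ) / 2 ^ k := by
  calc ∑ p ∈ level P k, 1 / (p : ℝ) ≤ ∑ p ∈ level P k, 1 / (2 : ℝ) ^ k := by
        refine Finset.sum_le_sum fun p hp => ?_
        have h1 := (level_bounds hP hp).1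
        apply one_div_le_one_div_of_le (by positivity)
        exact_mod_cast h1
    _ = _ := by rw [Finset.sum_const, nsmul_eq_mul]; ring

theorem card_level {P : Finset ℕ} (hP : ∀ p ∈ P, p.Prime) (k : ℕ) :
    (level P k).card ≤ 2 ^ k := by
  have h1 : level P k ⊆ Finset.Ico (2 ^ k) (2 ^ (k + 1)) := by
    intro p hp
    rw [Finset.mem_Ico]
    exact level_bounds hP hp
  have h2 := Finset.card_le_card h1
  rw [Nat.card_Ico, pow_succ] at h2
  omega

/-- `∑ 1 / k ^ 2` -/
theorem sum_sq_le (L : ℕ) :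
    ∑ k ∈ Finset.range L, (if k < 100 then (1 : ℝ) else 1 / (k : ℝ) ^ 2) ≤
      101 - (if L ≤ 100 then (101 : ℝ) - L else 1 / ((L : ℝ) - 1)) := by
  induction L with
  | zero => simp
  | succ L ih =>
    rw [Finset.sum_range_succ]
    rcases Nat.lt_or_ge L 100 with h | h
    · rw [if_pos h, if_pos (by omega : L + 1 ≤ 100)]
      rw [if_pos (by omega : L ≤ 100)] at ih
      push_cast
      linarith
    · rw [if_neg (by omega : ¬ L < 100), if_neg (by omega : ¬ L + 1 ≤ 100)]
      have hL : (100 : ℝ) ≤ L := by exact_mod_cast h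
      push_cast
      rcases Nat.eq_or_lt_of_le h with h1 | h1
      · rw [if_pos (by omega : L ≤ 100)] at ih
        have : (L : ℝ) = 100 := by exact_mod_cast h1.symm
        rw [this] at ih ⊢
        norm_num at ih ⊢
        linarith
      · rw [if_neg (by omega : ¬ L ≤ 100)] at ih
        have h2 : 1 / (L : ℝ) ^ 2 ≤ 1 / ((L : ℝ) - 1) - 1 / L := by
          rw [div_sub_div _ _ (by linarith) (by linarith), div_le_div_iff₀ (by positivity)
            (mul_pos (by linarith) (by linarith))]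
          nlinarith
        have h3 : (L : ℝ) + 1 - 1 = L := by ring
        rw [h3]
        linarith

theorem sum_bad {P : Finset ℕ} (hP : ∀ p ∈ P, p.Prime) :
    ∑ p ∈ P \ good P, 1 / (p : ℝ) ≤ 101 := by
  classical
  obtain ⟨L, hL⟩ : ∃ L, ∀ p ∈ P, Nat.log 2 p < L :=
    ⟨P.sup (Nat.log 2) + 1, fun p hp => Nat.lt_succ_of_le (Finset.le_sup hp)⟩
  have h1 : ∑ p ∈ P \ good P, 1 / (p : ℝ) =
      ∑ k ∈ Finset.range L, ∑ p ∈ (P \ good P).filter (fun p => Nat.log 2 p = k), 1 / (p : ℝ) := by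
    refine (Finset.sum_fiberwise_of_maps_to ?_ _).symm
    intro p hp
    rw [Finset.mem_sdiff] at hp
    rw [Finset.mem_range]
    exact hL p hp.1
  rw [h1]
  have h2 : ∀ k ∈ Finset.range L,
      ∑ p ∈ (P \ good P).filter (fun p => Nat.log 2 p = k), 1 / (p : ℝ) ≤
        (if k < 100 then (1 : ℝ) else 1 / (k : ℝ) ^ 2) := by
    intro k _
    have h3 : (P \ good P).filter (fun p => Nat.log 2 p = k) ⊆ level P k := by
      intro p hp
      rw [Finset.mem_filter, Finset.mem_sdiff] at hp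
      unfold level
      rw [Finset.mem_filter]
      exact ⟨hp.1.1, hp.2⟩
    have h4 : ∑ p ∈ (P \ good P).filter (fun p => Nat.log 2 p = k), 1 / (p : ℝ) ≤
        ∑ p ∈ level P k, 1 / (p : ℝ) :=
      Finset.sum_le_sum_of_subset_of_nonneg h3 (fun _ _ _ => by positivity)
    have h5 := sum_level hP k
    split_ifs with hk
    · have h6 : ((level P k).card : ℝ) / 2 ^ k ≤ 1 := by
        rw [div_le_one (by positivity)]
        exact_mod_cast card_level hP k
      linarith
    · by_cases hg : 2 ^ k ≤ k ^ 2 * (level P k).card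
      · have h6 : (P \ good P).filter (fun p => Nat.log 2 p = k) = ∅ := by
          rw [Finset.eq_empty_iff_forall_notMem]
          intro p hp
          rw [Finset.mem_filter, Finset.mem_sdiff] at hp
          apply hp.1.2
          unfold good
          rw [Finset.mem_filter, hp.2]
          exact ⟨hp.1.1, by omega, hg⟩
        rw [h6, Finset.sum_empty]
        positivity
      · push Not at hg
        have hk0 : (0 : ℝ) < k := by exact_mod_cast (by omega : 0 < k)
        have h6 : ((level P k).card : ℝ) / 2 ^ k ≤ 1 / (k : ℝ) ^ 2 := by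
          rw [div_le_div_iff₀ (by positivity) (by positivity)]
          have : (((k ^ 2 * (level P k).card : ℕ)) : ℝ) ≤ ((2 ^ k : ℕ) : ℝ) := by
            exact_mod_cast hg.le
          push_cast at this
          linarith
        linarith
  refine (Finset.sum_le_sum h2).trans ((sum_sq_le L).trans ?_)
  split_ifs with h
  · have : (L : ℝ) ≤ 100 := by exact_mod_cast h
    linarith
  · have : (100 : ℝ) < L := by exact_mod_cast (by omega : 100 < L)
    have : (0 : ℝ) < 1 / ((L : ℝ) - 1) := by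
      apply div_pos one_pos
      linarith
    linarith

/-- a window exists -/
theorem exists_window {P : Finset ℕ} (hP : ∀ p ∈ P, p.Prime)
    (hsum : (104 : ℝ) ≤ ∑ p ∈ P, 1 / (p : ℝ)) :
    ∃ N K Q A, Q ⊆ P ∧ WData N K Q A := by
  classical
  set G := good P with hG
  have hGP : G ⊆ P := Finset.filter_subset _ _
  have hGprime : ∀ p ∈ G, p.Prime := fun p hp => hP p (hGP hp)
  have hGsum : (3 : ℝ) ≤ ∑ p ∈ G, 1 / (p : ℝ) := by
    have h1 := sum_bad hP
    have h2 := Finset.sum_sdiff hGP (f := fun p : ℕ => 1 / (p : ℝ))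
    linarith
  set Q : ℕ → Finset ℕ := fun k => G.filter (fun p => p < 2 ^ (k + 1)) with hQ
  have hQG : ∀ k, Q k ⊆ G := fun k => Finset.filter_subset _ _
  have hGne : G.Nonempty := by
    rw [Finset.nonempty_iff_ne_empty]
    intro h
    rw [h, Finset.sum_empty] at hGsum
    norm_num at hGsum
  have hex : ∃ k, (∃ p ∈ G, Nat.log 2 p = k) ∧
      (3 : ℝ) - 4 / 2 ^ k ≤ ∑ p ∈ Q k, 1 / (p : ℝ) := by
    obtain ⟨p, hp, hmax⟩ := Finset.exists_max_image G (Nat.log 2) hGne
    refine ⟨Nat.log 2 p, ⟨p, hp, rfl⟩, ?_⟩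
    have h1 : Q (Nat.log 2 p) = G := by
      rw [hQ]
      apply Finset.filter_true_of_mem
      intro q hq
      have h2 := hmax q hq
      have h3 := Nat.lt_pow_succ_log_self (b := 2) (by norm_num) q
      exact h3.trans_le (Nat.pow_le_pow_right (by norm_num) (by omega))
    rw [h1]
    have : (0 : ℝ) < 4 / 2 ^ Nat.log 2 p := by positivity
    linarith
  set k := Nat.find hex with hk
  obtain ⟨⟨p₀, hp₀, hp₀k⟩, hksum⟩ := Nat.find_spec hex
  rw [← hk] at hp₀k hksum
  have hmin : ∀ j < k, (∃ p ∈ G, Nat.log 2 p = j) →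
      ∑ p ∈ Q j, 1 / (p : ℝ) < (3 : ℝ) - 4 / 2 ^ j := by
    intro j hj hex'
    by_contra hcon
    push Not at hcon
    exact Nat.find_min hex hj ⟨hex', hcon⟩
  have hgood : ∀ p ∈ G, 100 ≤ Nat.log 2 p ∧
      2 ^ Nat.log 2 p ≤ Nat.log 2 p ^ 2 * (level P (Nat.log 2 p)).card := by
    intro p hp
    rw [hG] at hp
    unfold good at hp
    rw [Finset.mem_filter] at hp
    exact hp.2
  have hk100 : 100 ≤ k := by rw [← hp₀k]; exact (hgood p₀ hp₀).1
  have hkcard : 2 ^ k ≤ k ^ 2 * (level P k).card := by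
    rw [← hp₀k]; exact (hgood p₀ hp₀).2
  have hpow := two_pow_ge hk100
  have hlevG : ∀ p, p ∈ level P k ↔ p ∈ G ∧ Nat.log 2 p = k := by
    intro p
    unfold level
    rw [Finset.mem_filter]
    constructor
    · rintro ⟨h1, h2⟩
      refine ⟨?_, h2⟩
      rw [hG]
      unfold good
      rw [Finset.mem_filter, h2]
      exact ⟨h1, hk100, hkcard⟩
    · rintro ⟨h1, h2⟩
      exact ⟨hGP h1, h2⟩
  have hk2 : 128 * k ^ 2 ≤ 2 ^ k := by
    have h1 : k ^ 2 ≤ k ^ 12 := Nat.pow_le_pow_right (by omega) (by norm_num)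
    omega
  refine ⟨2 ^ k, k ^ 2, Q k, level P k, (hQG k).trans hGP, ?_⟩
  constructor
  · positivity
  · calc 2 ^ 20 * (k ^ 2) ^ 6 = 2 ^ 20 * k ^ 12 := by ring
      _ ≤ _ := hpow
  · exact fun p hp => hGprime p (hQG k hp)
  · intro p hp
    rw [hQ] at hp
    simp only [Finset.mem_filter] at hp
    have := hp.2
    rw [pow_succ] at this
    omega
  · intro p
    rw [hlevG, hQ]
    simp only [Finset.mem_filter]
    constructor
    · rintro ⟨h1, h2⟩
      have h3 := (hGprime p h1).pos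
      refine ⟨⟨h1, ?_⟩, ?_⟩
      · rw [← h2]; exact Nat.lt_pow_succ_log_self (by norm_num) p
      · rw [← h2]; exact Nat.pow_log_le_self 2 h3.ne'
    · rintro ⟨⟨h1, h2⟩, h3⟩
      refine ⟨h1, ?_⟩
      exact (Nat.log_eq_iff (Or.inl (by omega))).2 ⟨h3, h2⟩
  · exact hkcard
  · -- the descent
    intro F hF hFne hFlt
    have hFp : ∀ p ∈ F, p.Prime := fun p hp => hGprime p (hQG k (hF hp))
    have hf0 : 0 < val F := val_pos hFp
    set f := val F with hf
    have hne : (G.filter (fun p => p ≤ f)).Nonempty := by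
      obtain ⟨p, hp⟩ := hFne
      refine ⟨p, ?_⟩
      rw [Finset.mem_filter]
      exact ⟨hQG k (hF hp), Nat.le_of_dvd hf0 (Finset.dvd_prod_of_mem _ hp)⟩
    obtain ⟨p₁, hp₁, hmax⟩ := Finset.exists_max_image _ (Nat.log 2) hne
    rw [Finset.mem_filter] at hp₁
    set j := Nat.log 2 p₁ with hj
    have hj1 : 2 ^ j ≤ p₁ := Nat.pow_log_le_self 2 (hGprime p₁ hp₁.1).ne_zero
    have hjk : j < k := by
      by_contra hcon
      push Not at hcon
      have : 2 ^ k ≤ 2 ^ j := Nat.pow_le_pow_right (by norm_num) hcon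
      omega
    have h1 := hmin j hjk ⟨p₁, hp₁.1, rfl⟩
    have hsub : Q j ⊆ Q k := by
      intro q hq
      rw [hQ] at hq ⊢
      simp only [Finset.mem_filter] at hq ⊢
      exact ⟨hq.1, hq.2.trans_le (Nat.pow_le_pow_right (by norm_num) (by omega))⟩
    have h2 := Finset.sum_sdiff hsub (f := fun p : ℕ => 1 / (p : ℝ))
    have h3 : ∑ q ∈ Q k \ Q j, 1 / (q : ℝ) ≤ ∑ q ∈ (Q k).filter (fun q => f < q), 1 / (q : ℝ) := by
      refine Finset.sum_le_sum_of_subset_of_nonneg ?_ (fun _ _ _ => by positivity)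
      intro q hq
      rw [Finset.mem_sdiff] at hq
      rw [Finset.mem_filter]
      refine ⟨hq.1, ?_⟩
      by_contra hcon
      push Not at hcon
      have hqG := hQG k hq.1
      have h4 := hmax q (Finset.mem_filter.2 ⟨hqG, hcon⟩)
      apply hq.2
      rw [hQ]
      simp only [Finset.mem_filter]
      refine ⟨hqG, ?_⟩
      exact (Nat.lt_pow_succ_log_self (by norm_num) q).trans_le
        (Nat.pow_le_pow_right (by norm_num) (by omega))
    have hfr : (0 : ℝ) < f := by exact_mod_cast hf0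
    have h4 : (4 : ℝ) / f ≤ 4 / 2 ^ j := by
      apply div_le_div_of_nonneg_left (by norm_num) (by positivity)
      have : 2 ^ j ≤ f := hj1.trans hp₁.2
      exact_mod_cast this
    have h5 : (4 : ℝ) / 2 ^ k ≤ 2 / f := by
      rw [div_le_div_iff₀ (by positivity) hfr]
      have : 2 * f ≤ 2 ^ k := by omega
      have h6 : (2 : ℝ) * f ≤ 2 ^ k := by exact_mod_cast this
      linarith
    have h6 : (2 : ℝ) / f ≤ ∑ q ∈ (Q k).filter (fun q => f < q), 1 / (q : ℝ) := by
      have : (4 : ℝ) / f - 2 / f = 2 / f := by ring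
      linarith
    calc (2 : ℝ) = f * (2 / f) := by field_simp
      _ ≤ _ := mul_le_mul_of_nonneg_left h6 hfr.le
  · have h1 : (4 : ℝ) / 2 ^ k ≤ 1 := by
      rw [div_le_one (by positivity)]
      have : 4 ≤ 2 ^ k := by
        have : 1 ≤ k ^ 2 := Nat.one_le_pow _ _ (by omega)
        omega
      exact_mod_cast this
    linarith

/-- **Main theorem.** If the sum of the reciprocals of the prime factors of `m` is at least `104`,
then `m` is the sum of distinct proper divisors. -/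
theorem main {m : ℕ} (hm : 0 < m) (hsum : (104 : ℝ) ≤ ∑ p ∈ m.primeFactors, 1 / (p : ℝ)) :
    ∃ t ⊆ m.properDivisors, ∑ i ∈ t, i = m := by
  obtain ⟨N, K, Q, A, hQ, H⟩ := exists_window (fun p hp => Nat.prime_of_mem_primeFactors hp) hsum
  obtain ⟨S, hS, hS2⟩ := H.pseudo_window
  refine pseudo H.prime S hS hS2 hm ?_
  have h1 : val Q ∣ ∏ p ∈ m.primeFactors, p := Finset.prod_dvd_prod_of_subset _ _ _ hQ
  exact h1.trans (Nat.prod_primeFactors_dvd m)

/-- `σ(m) / m ≤ exp (2 ∑_{p ∣ m} 1 / p)` -/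
theorem sigma_le {m : ℕ} (hm : 0 < m) :
    ((∑ i ∈ m.divisors, i : ℕ) : ℝ) / (m : ℝ) ≤
      Real.exp (2 * ∑ p ∈ m.primeFactors, 1 / (p : ℝ)) := by
  rw [Nat.sum_divisors hm.ne', Finset.mul_sum, Real.exp_sum]
  have hm' : (m : ℝ) = ∏ p ∈ m.primeFactors, (p : ℝ) ^ m.factorization p := by
    have := Nat.prod_factorization_pow_eq_self hm.ne'
    conv_lhs => rw [← this]
    unfold Finsupp.prod
    push_cast
    rfl
  rw [hm']
  push_cast
  rw [← Finset.prod_div_distrib]
  refine Finset.prod_le_prod (fun p _ => by positivity) fun p hp => ?_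
  have hpp := Nat.prime_of_mem_primeFactors hp
  have h2 : (2 : ℝ) ≤ p := by exact_mod_cast hpp.two_le
  have h3 : (1 : ℝ) + 2 * (1 / p) ≤ Real.exp (2 * (1 / (p : ℝ))) := by
    have := Real.add_one_le_exp (2 * (1 / (p : ℝ)))
    linarith
  refine le_trans ?_ h3
  rw [div_le_iff₀ (by positivity)]
  set v := m.factorization p
  have h4 : (∑ k ∈ Finset.range (v + 1), (p : ℝ) ^ k) * ((p : ℝ) - 1) = (p : ℝ) ^ (v + 1) - 1 :=
    geom_sum_mul (p : ℝ) (v + 1)
  have h5 : (0 : ℝ) < (p : ℝ) - 1 := by linarith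
  have h6 : (0 : ℝ) < (p : ℝ) ^ v := by positivity
  have h7 : (∑ k ∈ Finset.range (v + 1), (p : ℝ) ^ k) * ((p : ℝ) - 1) ≤
      ((1 + 2 * (1 / (p : ℝ))) * (p : ℝ) ^ v) * ((p : ℝ) - 1) := by
    rw [h4]
    have h8 : ((1 + 2 * (1 / (p : ℝ))) * (p : ℝ) ^ v) * ((p : ℝ) - 1) =
        (p : ℝ) ^ v * (p + 1 - 2 / p) := by
      have : (p : ℝ) ≠ 0 := by linarith
      field_simp
      ring
    rw [h8, pow_succ]
    have h9 : (2 : ℝ) / p ≤ 1 := by
      rw [div_le_one (by linarith)]; exact h2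
    nlinarith
  exact le_of_mul_le_mul_right h7 h5

end Pool.Agent.R465.Weird
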